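import Pool.Agent.H59.OC.OCB
import Pool.Agent.H88.OCS.Defs

/-!
# Rounding of digits

Conditional entropies of nested digits, summed over the depths with a lag in the condition, do
not depend on the rounding and on the scaling of the variables.
-/

set_option autoImplicit false

namespace Pool.OCSR

open Finset Real
open Pool.Agent.H49.Ent Pool.Agent.H32.Dense Pool.STK Pool.KA Pool.K2S

namespace Ocs

variable {Ω S S' T T' U U' : Type} [Fintype Ω]

theorem CH_vec {m : ℕ} {p : Ω → ℝ} (hp : IsLaw p) (X : Ω → Fin m → ℤ) (W : Ω → T) {c : ℝ}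
    (hX : ∀ ω ω', 0 < p ω → 0 < p ω' → W ω = W ω' → ∀ k, |((X ω k - X ω' k : ℤ) : ℝ)| ≤ c) :
    CH p X W ≤ m * Real.log (2 * c + 1) := by
  have h := CH_le_vec hp.nonneg hp.sum_one X W (fun _ => c) hX
  rw [Ex_const hp.sum_one] at h
  exact h

theorem CH_int {p : Ω → ℝ} (hp : IsLaw p) (X : Ω → ℤ) (W : Ω → T) {c : ℝ}
    (hX : ∀ ω ω', 0 < p ω → 0 < p ω' → W ω = W ω' → |((X ω - X ω' : ℤ) : ℝ)| ≤ c) :
    CH p X W ≤ Real.log (2 * c + 1) := by
  have h := CH_le_int hp.nonneg hp.sum_one X W (fun _ => c) hX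
  rw [Ex_const hp.sum_one] at h
  exact h

/-- Comparison of conditional entropies. -/
theorem CH_approx {p : Ω → ℝ} (h0 : ∀ ω, 0 ≤ p ω) (X : Ω → S) (X' : Ω → S') (Y : Ω → T)
    (Y' : Ω → T') : CH p X Y ≤ CH p X' Y' + CH p X X' + CH p Y' Y := by
  have h1 := CH_le_add h0 X Y' Y
  have h2 : CH p X (fun ω => (Y' ω, Y ω)) ≤ CH p X Y' :=
    CH_mono_cond h0 fun ω ω' _ _ e => (Prod.ext_iff.mp e).1
  have h3 := CH_le_add h0 X X' Y'
  have h4 : CH p X (fun ω => (X' ω, Y' ω)) ≤ CH p X X' :=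
    CH_mono_cond h0 fun ω ω' _ _ e => (Prod.ext_iff.mp e).1
  linarith

/-- A common part of the condition. -/
theorem CH_pair_cond {p : Ω → ℝ} (h0 : ∀ ω, 0 ≤ p ω) (Y : Ω → S) (Y' : Ω → S') (W : Ω → T) :
    CH p (fun ω => (Y' ω, W ω)) (fun ω => (Y ω, W ω)) ≤ CH p Y' Y := by
  have h1 : CH p (fun ω => (Y' ω, W ω)) (fun ω => (Y ω, W ω)) ≤
      CH p Y' (fun ω => (Y ω, W ω)) :=
    CH_mono_left h0 fun ω ω' _ _ e => by
      have e1 := Prod.ext_iff.mp e
      have e2 := Prod.ext_iff.mp e1.2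
      exact Prod.ext e1.1 e2.2
  have h2 : CH p Y' (fun ω => (Y ω, W ω)) ≤ CH p Y' Y :=
    CH_mono_cond h0 fun ω ω' _ _ e => (Prod.ext_iff.mp e).1
  exact h1.trans h2

/-! ### blocks of digits -/

/-- The digits of a block. -/
theorem blk_sum {p : Ω → ℝ} (h0 : ∀ ω, 0 ≤ p ω) (A : ℕ → Ω → S)
    (hA : ∀ s, Det p (A (s + 1)) (A s)) (W : Ω → T) (s₀ h : ℕ) :
    ∑ i ∈ range h, CH p (A (s₀ + i + 1)) (fun ω => (A (s₀ + i) ω, W ω)) =
      CH p (A (s₀ + h)) (fun ω => (A s₀ ω, W ω)) := by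
  induction h with
  | zero =>
    rw [Finset.sum_range_zero, Nat.add_zero]
    refine (CH_eq_zero h0 (X := A s₀) (W := fun ω => (A s₀ ω, W ω)) ?_).symm
    exact fun ω ω' _ _ e => (Prod.ext_iff.mp e).1
  | succ h ih =>
    rw [Finset.sum_range_succ, ih]
    have dd : ∀ n, Det p (A (s₀ + n)) (A s₀) := by
      intro n
      induction n with
      | zero => exact fun ω ω' _ _ e => e
      | succ n ihn => exact fun ω ω' a b e => ihn ω ω' a b (hA (s₀ + n) ω ω' a b e)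
    have c1 := CH_chain h0 (A (s₀ + h + 1)) (A (s₀ + h)) (fun ω => (A s₀ ω, W ω))
    have c2 : CH p (fun ω => (A (s₀ + h + 1) ω, A (s₀ + h) ω)) (fun ω => (A s₀ ω, W ω)) =
        CH p (A (s₀ + (h + 1))) (fun ω => (A s₀ ω, W ω)) := by
      refine CH_congr h0 ?_ ?_ (fun _ _ _ _ e => e) (fun _ _ _ _ e => e)
      · intro ω ω' _ _ e
        exact (Prod.ext_iff.mp (Prod.ext_iff.mp e).1).1
      · intro ω ω' a b e
        have e1 : A (s₀ + h + 1) ω = A (s₀ + h + 1) ω' := (Prod.ext_iff.mp e).1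
        exact Prod.ext e1 (hA (s₀ + h) ω ω' a b e1)
    have c3 : CH p (A (s₀ + h + 1)) (fun ω => (A (s₀ + h) ω, (A s₀ ω, W ω))) =
        CH p (A (s₀ + h + 1)) (fun ω => (A (s₀ + h) ω, W ω)) := by
      refine CH_congr h0 ?_ ?_ ?_ ?_
      · intro ω ω' _ _ e
        exact (Prod.ext_iff.mp e).1
      · intro ω ω' _ _ e
        exact (Prod.ext_iff.mp e).1
      · intro ω ω' _ _ e
        have e1 := Prod.ext_iff.mp e
        exact Prod.ext e1.1 (Prod.ext_iff.mp e1.2).2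
      · intro ω ω' a b e
        have e1 := Prod.ext_iff.mp e
        exact Prod.ext e1.1 (Prod.ext (dd h ω ω' a b e1.1) e1.2)
    linarith

section lag

variable {p : Ω → ℝ} {A : ℕ → Ω → S} {O : ℕ → Ω → U}

/-- A block against single digits with a larger lag. -/
theorem lag_ge (h0 : ∀ ω, 0 ≤ p ω) (hA : ∀ s, Det p (A (s + 1)) (A s))
    (hO : ∀ r s, r ≤ s → Det p (O s) (O r)) (W : Ω → T) (l h s₀ : ℕ) :
    CH p (A (s₀ + h)) (fun ω => (A s₀ ω, (O (s₀ - l) ω, W ω))) ≤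
      ∑ i ∈ range h, CH p (A (s₀ + i + 1))
        (fun ω => (A (s₀ + i) ω, (O (s₀ + i - (l + h)) ω, W ω))) := by
  rw [← blk_sum h0 A hA (fun ω => (O (s₀ - l) ω, W ω)) s₀ h]
  refine Finset.sum_le_sum fun i hi => ?_
  have hi' := Finset.mem_range.1 hi
  refine CH_mono_cond h0 fun ω ω' a b e => ?_
  have e1 := Prod.ext_iff.mp e
  have e2 := Prod.ext_iff.mp e1.2
  exact Prod.ext e1.1 (Prod.ext (hO _ _ (by omega) ω ω' a b e2.1) e2.2)

/-- Single digits against a block. -/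
theorem lag_le (h0 : ∀ ω, 0 ≤ p ω) (hA : ∀ s, Det p (A (s + 1)) (A s))
    (hO : ∀ r s, r ≤ s → Det p (O s) (O r)) (W : Ω → T) (l h s₀ : ℕ) :
    ∑ i ∈ range h, CH p (A (s₀ + i + 1)) (fun ω => (A (s₀ + i) ω, (O (s₀ + i - l) ω, W ω))) ≤
      CH p (A (s₀ + h)) (fun ω => (A s₀ ω, (O (s₀ - l) ω, W ω))) := by
  rw [← blk_sum h0 A hA (fun ω => (O (s₀ - l) ω, W ω)) s₀ h]
  refine Finset.sum_le_sum fun i _ => ?_
  refine CH_mono_cond h0 fun ω ω' a b e => ?_
  have e1 := Prod.ext_iff.mp e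
  have e2 := Prod.ext_iff.mp e1.2
  exact Prod.ext e1.1 (Prod.ext (hO _ _ (by omega) ω ω' a b e2.1) e2.2)

end lag

theorem sum_blocks (f : ℕ → ℝ) (n h : ℕ) :
    ∑ s ∈ range (n * h), f s = ∑ r ∈ range n, ∑ i ∈ range h, f (r * h + i) := by
  induction n with
  | zero => simp
  | succ n ih => rw [Nat.succ_mul, Finset.sum_range_add, ih, Finset.sum_range_succ]

theorem sum_split (f : ℕ → ℝ) (X h : ℕ) :
    ∑ s ∈ range X, f s = ∑ r ∈ range (X / h), ∑ i ∈ range h, f (r * h + i) +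
      ∑ s ∈ range (X % h), f (X / h * h + s) := by
  have e : X = X / h * h + X % h := (Nat.div_add_mod' X h).symm
  rw [← sum_blocks, ← Finset.sum_range_add, ← e]

/-- Lagged sums from blocks. -/
theorem lag_blocks {p : Ω → ℝ} (h0 : ∀ ω, 0 ≤ p ω) {A : ℕ → Ω → S} {O : ℕ → Ω → U}
    (hA : ∀ s, Det p (A (s + 1)) (A s)) (hO : ∀ r s, r ≤ s → Det p (O s) (O r)) (W : Ω → T)
    (l h X : ℕ) :
    ∑ r ∈ range (X / h), CH p (A (r * h + h)) (fun ω => (A (r * h) ω, (O (r * h - l) ω, W ω))) ≤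
      ∑ s ∈ range X, CH p (A (s + 1)) (fun ω => (A s ω, (O (s - (l + h)) ω, W ω))) := by
  rw [sum_split _ X h]
  have k1 := Finset.sum_le_sum (s := range (X / h)) fun r _ => lag_ge h0 hA hO W l h (r * h)
  have k3 : 0 ≤ ∑ s ∈ range (X % h), CH p (A (X / h * h + s + 1))
      (fun ω => (A (X / h * h + s) ω, (O (X / h * h + s - (l + h)) ω, W ω))) :=
    Finset.sum_nonneg fun s _ => CH_nonneg h0 _ _
  linarith

/-- **Rounding of lagged sums.** -/
theorem lag_round {p : Ω → ℝ} (h0 : ∀ ω, 0 ≤ p ω) {A : ℕ → Ω → S} {A' : ℕ → Ω → S'}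
    {O : ℕ → Ω → U} {O' : ℕ → Ω → U'} (hA : ∀ s, Det p (A (s + 1)) (A s))
    (hA' : ∀ s, Det p (A' (s + 1)) (A' s)) (hO : ∀ r s, r ≤ s → Det p (O s) (O r))
    (hO' : ∀ r s, r ≤ s → Det p (O' s) (O' r)) (W : Ω → T) {C₁ C₂ D : ℝ} {l h X : ℕ}
    (hh : 0 < h) (hD : 0 ≤ D) (c1 : ∀ s ≤ X, CH p (A s) (A' s) ≤ C₁)
    (c2 : ∀ s ≤ X, CH p (fun ω => (A' s ω, O' (s - l) ω)) (fun ω => (A s ω, O (s - l) ω)) ≤ C₂)
    (c3 : ∀ s, CH p (A (s + 1)) (A s) ≤ D) :
    ∑ s ∈ range X, CH p (A (s + 1)) (fun ω => (A s ω, (O (s - l) ω, W ω))) ≤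
      ∑ s ∈ range X, CH p (A' (s + 1)) (fun ω => (A' s ω, (O' (s - (l + h)) ω, W ω))) +
        (X / h : ℕ) * (C₁ + C₂) + h * D := by
  rw [sum_split _ X h, sum_split (fun s => CH p (A' (s + 1))
    (fun ω => (A' s ω, (O' (s - (l + h)) ω, W ω)))) X h]
  have k1 : ∑ r ∈ range (X / h), ∑ i ∈ range h, CH p (A (r * h + i + 1))
      (fun ω => (A (r * h + i) ω, (O (r * h + i - l) ω, W ω))) ≤
      ∑ r ∈ range (X / h), ∑ i ∈ range h, CH p (A' (r * h + i + 1))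
        (fun ω => (A' (r * h + i) ω, (O' (r * h + i - (l + h)) ω, W ω))) +
        (X / h : ℕ) * (C₁ + C₂) := by
    have e : ((X / h : ℕ) : ℝ) * (C₁ + C₂) = ∑ _r ∈ range (X / h), (C₁ + C₂) := by
      rw [Finset.sum_const, card_range, nsmul_eq_mul]
    rw [e, ← Finset.sum_add_distrib]
    refine Finset.sum_le_sum fun r hr => ?_
    have hr1 : (r + 1) * h ≤ X := by
      have := Finset.mem_range.1 hr
      exact (Nat.le_div_iff_mul_le hh).1 this
    have hr2 : r * h + h ≤ X := by rwa [Nat.succ_mul] at hr1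
    have hr3 : r * h ≤ X := by omega
    refine (lag_le h0 hA hO W l h (r * h)).trans ?_
    have g1 := lag_ge h0 hA' hO' W l h (r * h)
    have g2 := CH_approx h0 (A (r * h + h)) (A' (r * h + h))
      (fun ω => (A (r * h) ω, (O (r * h - l) ω, W ω)))
      (fun ω => (A' (r * h) ω, (O' (r * h - l) ω, W ω)))
    have g3 : CH p (fun ω => (A' (r * h) ω, (O' (r * h - l) ω, W ω)))
        (fun ω => (A (r * h) ω, (O (r * h - l) ω, W ω))) ≤ C₂ := by
      refine le_trans (le_of_eq ?_) ((CH_pair_cond h0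
        (fun ω => (A (r * h) ω, O (r * h - l) ω))
        (fun ω => (A' (r * h) ω, O' (r * h - l) ω)) W).trans (c2 _ hr3))
      refine CH_congr h0 ?_ ?_ ?_ ?_
      · intro ω ω' _ _ e
        have e1 := Prod.ext_iff.mp (Prod.ext_iff.mp e).1
        have e2 := Prod.ext_iff.mp e1.2
        exact Prod.ext (Prod.ext e1.1 e2.1) e2.2
      · intro ω ω' _ _ e
        have e1 := Prod.ext_iff.mp (Prod.ext_iff.mp e).1
        have e2 := Prod.ext_iff.mp e1.1
        exact Prod.ext e2.1 (Prod.ext e2.2 e1.2)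
      · intro ω ω' _ _ e
        have e1 := Prod.ext_iff.mp e
        have e2 := Prod.ext_iff.mp e1.2
        exact Prod.ext (Prod.ext e1.1 e2.1) e2.2
      · intro ω ω' _ _ e
        have e1 := Prod.ext_iff.mp e
        have e2 := Prod.ext_iff.mp e1.1
        exact Prod.ext e2.1 (Prod.ext e2.2 e1.2)
    have g4 := c1 _ hr2
    linarith
  have k2 : ∑ s ∈ range (X % h), CH p (A (X / h * h + s + 1))
      (fun ω => (A (X / h * h + s) ω, (O (X / h * h + s - l) ω, W ω))) ≤ h * D := by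
    have e : ∑ _s ∈ range (X % h), D = (X % h : ℕ) * D := by
      rw [Finset.sum_const, card_range, nsmul_eq_mul]
    refine le_trans (Finset.sum_le_sum (g := fun _ => D) fun s _ => ?_) ?_
    · refine le_trans (CH_mono_cond h0 fun ω ω' _ _ e => ?_) (c3 (X / h * h + s))
      exact (Prod.ext_iff.mp e).1
    · rw [e]
      have : ((X % h : ℕ) : ℝ) ≤ h := by exact_mod_cast (Nat.mod_lt X hh).le
      exact mul_le_mul_of_nonneg_right this hD
  have k3 : 0 ≤ ∑ s ∈ range (X % h), CH p (A' (X / h * h + s + 1))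
      (fun ω => (A' (X / h * h + s) ω, (O' (X / h * h + s - (l + h)) ω, W ω))) :=
    Finset.sum_nonneg fun s _ => CH_nonneg h0 _ _
  linarith

/-! ### floors -/

theorem fl_abs (x : ℝ) : |x - ⌊x⌋| ≤ 1 := by
  rw [abs_le]
  have := Int.floor_le x
  have := Int.lt_floor_add_one x
  constructor <;> linarith

theorem fl_eq {x y : ℝ} (h : ⌊x⌋ = ⌊y⌋) : |x - y| ≤ 1 := by
  have h1 := Int.floor_le x
  have h2 := Int.lt_floor_add_one x
  have h3 := Int.floor_le y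
  have h4 := Int.lt_floor_add_one y
  rw [h] at h1 h2
  rw [abs_le]
  constructor <;> linarith

theorem fl_sub {x y c : ℝ} (h : |x - y| ≤ c) : |((⌊x⌋ - ⌊y⌋ : ℤ) : ℝ)| ≤ c + 1 := by
  have h1 := Int.floor_le x
  have h2 := Int.lt_floor_add_one x
  have h3 := Int.floor_le y
  have h4 := Int.lt_floor_add_one y
  push_cast
  rw [abs_le] at h ⊢
  constructor <;> linarith [h.1, h.2]

theorem fl_half (s : ℕ) {x y : ℝ} (h : ⌊(2 : ℝ) ^ (s + 1) * x⌋ = ⌊(2 : ℝ) ^ (s + 1) * y⌋) :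
    ⌊(2 : ℝ) ^ s * x⌋ = ⌊(2 : ℝ) ^ s * y⌋ := by
  have e : ∀ z : ℝ, ⌊(2 : ℝ) ^ s * z⌋ = ⌊(2 : ℝ) ^ (s + 1) * z⌋ / 2 := by
    intro z
    have e1 : (2 : ℝ) ^ s * z = 2 ^ (s + 1) * z / ((2 : ℕ) : ℝ) := by
      rw [pow_succ]
      push_cast
      ring
    rw [e1, Int.floor_div_natCast]
    norm_num
  rw [e x, e y, h]

theorem fl_coarse {r s : ℕ} (hrs : r ≤ s) {x y : ℝ} (h : ⌊(2 : ℝ) ^ s * x⌋ = ⌊(2 : ℝ) ^ s * y⌋) :
    ⌊(2 : ℝ) ^ r * x⌋ = ⌊(2 : ℝ) ^ r * y⌋ := by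
  obtain ⟨n, rfl⟩ := Nat.exists_eq_add_of_le hrs
  clear hrs
  induction n with
  | zero => exact h
  | succ n ih => exact ih (fl_half (r + n) h)

/-- One step of the digits of a vector has at most `2 ^ 2` values. -/
theorem CH_step {p : Ω → ℝ} (hp : IsLaw p) (x : Ω → Fin 2 → ℝ) (s : ℕ) :
    CH p (fun ω (j : Fin 2) => ⌊(2 : ℝ) ^ (s + 1) * x ω j⌋)
      (fun ω (j : Fin 2) => ⌊(2 : ℝ) ^ s * x ω j⌋) ≤ 2 * Real.log 2 := by
  classical
  refine (CH_le_card hp.nonneg hp.sum_one _ _ (fun v => Fintype.piFinset fun j : Fin 2 =>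
    Finset.Ico (2 * v j) (2 * v j + 2)) ?_).trans ?_
  · intro ω _
    rw [Fintype.mem_piFinset]
    intro j
    rw [Finset.mem_Ico]
    have e : (2 : ℝ) ^ (s + 1) * x ω j = 2 * (2 ^ s * x ω j) := by rw [pow_succ]; ring
    have h2 := Int.floor_le ((2 : ℝ) ^ s * x ω j)
    have h3 := Int.lt_floor_add_one ((2 : ℝ) ^ s * x ω j)
    constructor
    · refine Int.le_floor.2 ?_
      rw [e]
      push_cast
      linarith
    · refine Int.floor_lt.2 ?_
      rw [e]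
      push_cast
      linarith
  · refine le_of_eq ?_
    have : ∀ v : Fin 2 → ℤ, (Fintype.piFinset fun j : Fin 2 =>
        Finset.Ico (2 * v j) (2 * v j + 2)).card = 2 ^ 2 := by
      intro v
      rw [Fintype.card_piFinset]
      have : ∀ j : Fin 2, (Finset.Ico (2 * v j) (2 * v j + 2)).card = 2 := by
        intro j
        rw [Int.card_Ico]
        have : 2 * v j + 2 - 2 * v j = 2 := by ring
        rw [this]
        rfl
      simp [this]
    simp only [this]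
    rw [Ex_const hp.sum_one, Nat.cast_pow, Nat.cast_ofNat, Real.log_pow]
    norm_num

end Ocs

end Pool.OCSR
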