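import Pool.Agent.H8.OCS.OCSB
import Pool.Agent.H88.OCS.OcbDefs

/-!
# Theorem OCS for real variables, form with tiles
-/

set_option autoImplicit false

namespace Pool.K2S

open Finset Real
open Pool.Agent.H49.Ent Pool.Agent.H32.Dense Pool.STK Pool.KA

open Ocs in
theorem ocsb_thm (hOC : Pool.OCS.OCSStmt) : OCSBStmt := by
  intro B c ca hc hca
  obtain ⟨x₀, lm, κ, ϖ, ι, ε, X₀, hx₀, hlm, hκ, hκ1, hϖ, hι, hε, key⟩ :=
    Pool.OCSR.r_thm hOC (2 ^ B) c ca hc hca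
  refine ⟨x₀, lm, κ, ϖ, ι, ε, X₀, 1, hx₀, hlm, hκ, hκ1, hϖ, hι, hε, ?_⟩
  intro Ω β Λ Θ _ p b L T y om be m0 th S E nu X t hd hX ht htX h1 h1' h2 h3 h4 h5 h6 h7
  have hp := hd.law
  have h0 := hp.nonneg
  have hd' : Pool.OCSR.RData (2 ^ B) p b L T (fun ω j => y j ω) (fun ω j => om j ω) be m0 th
      (fun ω j => S j ω) E nu := by
    have one : (1 : ℝ) ≤ 2 ^ B := one_le_pow₀ (by norm_num)
    have ab : ∀ {x : ℝ}, 0 ≤ x ∧ x < 1 → |x| ≤ 2 ^ B := fun {x} h => by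
      rw [abs_of_nonneg h.1]
      linarith [h.2]
    exact ⟨hp, fun ω ω' c d e => funext fun j => hd.dy j ω ω' c d e,
      fun ω ω' c d e => funext fun j => hd.dom j ω ω' c d e, hd.dbe, hd.dm0, hd.dth,
      fun ω ω' c d e => funext fun j => hd.dS j ω ω' c d e, hd.dE,
      fun ω hω j => ab (hd.hy j ω hω), fun ω hω j => ab (hd.hom j ω hω),
      fun ω hω => ab (hd.hbe ω hω), hd.hth, fun ω hω j => hd.hS j ω hω, hd.hE, hd.hnu⟩
  have dd : ∀ (n : ℕ) (x : Fin 2 → Ω → ℝ) (ω ω' : Ω), dg2 n x ω = dg2 n x ω' ↔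
      Pool.OCSR.Ocs.dgv n (fun ω j => x j ω) ω = Pool.OCSR.Ocs.dgv n (fun ω j => x j ω) ω' := by
    intro n x ω ω'
    constructor
    · intro e
      have e1 := Prod.ext_iff.mp e
      funext j
      fin_cases j
      · exact e1.1
      · exact e1.2
    · intro e
      exact Prod.ext (congrFun e 0) (congrFun e 1)
  have hpt : Pool.OCSR.Ocs.ptv (fun ω j => y j ω) (fun ω j => om j ω) th =
      fun ω j => yt y om th j ω := rfl
  refine key Ω β Λ Θ p b L T (fun ω j => y j ω) (fun ω j => om j ω) be m0 th (fun ω j => S j ω)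
    E nu X t hd' hX htX h1 h1' ?_ ?_ ?_ h5 ?_ h7
  · refine le_trans (le_of_eq ?_) h2
    congr 1
    refine CH_congr h0 ?_ ?_ ?_ ?_
    · exact fun ω ω' _ _ e => (Prod.ext_iff.mp e).1
    · exact fun ω ω' _ _ e => (Prod.ext_iff.mp e).1
    · intro ω ω' _ _ e
      have e1 := Prod.ext_iff.mp e
      have e2 := Prod.ext_iff.mp e1.1
      have e3 := Prod.ext_iff.mp e2.2
      exact Prod.ext (Prod.ext ((dd X y ω ω').2 e2.1) (Prod.ext ((dd X om ω ω').2 e3.1) e3.2)) e1.2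
    · intro ω ω' _ _ e
      have e1 := Prod.ext_iff.mp e
      have e2 := Prod.ext_iff.mp e1.1
      have e3 := Prod.ext_iff.mp e2.2
      exact Prod.ext (Prod.ext ((dd X y ω ω').1 e2.1) (Prod.ext ((dd X om ω ω').1 e3.1) e3.2)) e1.2
  · refine h3.trans ?_
    have k1 := Pool.OCSR.Ocs.lag_blocks h0
      (A := fun s => Pool.OCSR.Ocs.dgv s (fun ω j => yt y om th j ω))
      (O := fun s => Pool.OCSR.Ocs.dgv s (fun ω j => om j ω))
      (fun s => Pool.OCSR.Ocs.dgv_det _ s) (fun r s hrs => Pool.OCSR.Ocs.dgv_det' _ r s hrs)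
      (fun ω => (b ω, T ω)) 0 t X
    rw [hpt]
    refine le_trans (le_of_eq ?_) (k1.trans (le_of_eq ?_))
    · refine Finset.sum_congr rfl fun r _ => ?_
      have e0 : (r + 1) * t = r * t + t := Nat.succ_mul r t
      rw [e0, Nat.sub_zero]
      refine CH_congr h0 ?_ ?_ ?_ ?_
      · exact fun ω ω' _ _ e => (dd _ _ ω ω').1 (Prod.ext_iff.mp e).1
      · exact fun ω ω' _ _ e => (dd _ _ ω ω').2 (Prod.ext_iff.mp e).1
      · intro ω ω' _ _ e
        have e1 := Prod.ext_iff.mp e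
        have e2 := Prod.ext_iff.mp e1.2
        exact Prod.ext ((dd _ _ ω ω').1 e1.1) (Prod.ext ((dd _ _ ω ω').1 e2.1) e2.2)
      · intro ω ω' _ _ e
        have e1 := Prod.ext_iff.mp e
        have e2 := Prod.ext_iff.mp e1.2
        exact Prod.ext ((dd _ _ ω ω').2 e1.1) (Prod.ext ((dd _ _ ω ω').2 e2.1) e2.2)
    · rw [Nat.zero_add]
  · refine h4.trans (le_of_eq ?_)
    refine CH_congr h0 ?_ ?_ ?_ ?_
    · exact fun ω ω' _ _ e => (Prod.ext_iff.mp e).1
    · exact fun ω ω' _ _ e => (Prod.ext_iff.mp e).1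
    · intro ω ω' _ _ e
      have e1 := Prod.ext_iff.mp e
      have e2 := Prod.ext_iff.mp e1.1
      have e3 := Prod.ext_iff.mp e2.2
      exact Prod.ext e1.2 (Prod.ext ((dd X (yt y om th) ω ω').1 e2.1) (Prod.ext e3.1 e3.2))
    · intro ω ω' _ _ e
      have e1 := Prod.ext_iff.mp e
      have e2 := Prod.ext_iff.mp e1.2
      have e3 := Prod.ext_iff.mp e2.2
      exact Prod.ext (Prod.ext ((dd X (yt y om th) ω ω').2 e2.1) (Prod.ext e3.1 e3.2)) e1.1
  · refine le_trans (le_of_eq ?_) h6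
    congr 1
    ext w
    have hpos : (0 : ℝ) < (2 : ℝ) ^ (-(x₀ * X)) := Real.rpow_pos_of_pos (by norm_num) _
    exact pi_norm_lt_iff hpos

end Pool.K2S
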