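import Pool.Agent.H8.OCS.Three

/-!
# Theorem OCS in the mean over the context
-/

set_option autoImplicit false

namespace Pool.OCSR

open Finset Real
open Pool.Agent.H49.Ent Pool.Agent.H32.Dense Pool.STK Pool.KA Pool.K2S

/-- **(OCSB)** Theorem OCS for one law, in the mean over the values of the context `b`. -/
def RStmt : Prop :=
  ∀ K c ca : ℝ, 0 < c → 0 < ca → ∃ (x₀ lm κ ϖ ι ε : ℝ) (X₀ : ℕ), 0 < x₀ ∧ 0 < lm ∧ 0 < κ ∧
    κ ≤ 1 ∧ 0 < ϖ ∧ 0 < ι ∧ 0 < ε ∧
    ∀ (Ω β Λ Θ : Type) [Fintype Ω] (p : Ω → ℝ) (b : Ω → β) (L : Ω → Λ) (T : Ω → Θ)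
      (y om : Ω → Fin 2 → ℝ) (be m0 th : Ω → ℝ) (S : Ω → Fin 2 → ℝ) (E nu : Ω → ℝ)
      (X lam : ℕ), RData K p b L T y om be m0 th S E nu → X₀ ≤ X → (lam : ℝ) ≤ lm * X →
      Pool.KVA.MI p T L b ≤ ι * X →
      (1 - ι) * X * Real.log 2 ≤ CH p (Uni.dg X th) (fun ω => (L ω, b ω)) →
      CH p (Uni.dg X nu) (fun ω => (b ω, T ω)) -
        CH p (Uni.dg X nu) (fun ω => ((Ocs.dgv X y ω, (Ocs.dgv X om ω, Uni.dg X be ω)),
          (b ω, T ω))) ≤ ι * X →
      (2 - ι) * X * Real.log 2 ≤ ∑ s ∈ range X, CH p (Ocs.dgv (s + 1) (Ocs.ptv y om th))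
        (fun ω => (Ocs.dgv s (Ocs.ptv y om th) ω, (Ocs.dgv (s - lam) om ω, (b ω, T ω)))) →
      ca * X * Real.log 2 ≤ CH p (Uni.dg X (fun ω => om ω 0))
        (fun ω => ((b ω, T ω), Ocs.pdv X y om be th S E ω)) →
      (∀ j : ℕ, (j + 1) * ⌊κ * X⌋₊ ≤ X → ∀ A : Ω → Prop, ϖ ≤ Pe p A →
        CH (Pool.Agent.H49.Ent.cond p A True) (Uni.dg ((j + 1) * ⌊κ * X⌋₊) nu)
          (fun ω => (Uni.dg (j * ⌊κ * X⌋₊) nu ω, (b ω, T ω))) ≤
          (1 - c) * ⌊κ * X⌋₊ * Real.log 2) →
      Pool.KAF.Pr (dbl p (fun ω => (L ω, b ω)))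
        {w | ‖S w.1 - S w.2‖ < (2 : ℝ) ^ (-(x₀ * X))} ≤ ε →
      Pool.KAF.Pr (dbl p (fun ω => (L ω, b ω)))
        {w | |E w.1 - E w.2| < (2 : ℝ) ^ (-(x₀ * X))} ≤ ε →
      False

namespace Ocs

open Uni (dg)

variable {Ω Λ Θ β S T U V : Type} [Fintype Ω]

/-- The digits of a bounded number. -/
theorem dg_card' {q : Ω → ℝ} (hq : IsLaw q) (X a : ℕ) {x : Ω → ℝ}
    (hx : ∀ ω, 0 < q ω → |x ω| ≤ 2 ^ a) (W : Ω → T) : CH q (dg X x) W ≤ (X + a + 4) * Real.log 2 := by
  have h2X : (0 : ℝ) < 2 ^ X := by positivity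
  have key := CH_int hq (dg X x) W (c := 2 ^ (X + a + 1) + 1) (fun ω ω' c d _ => by
    refine fl_sub ?_
    rw [← mul_sub, abs_mul, abs_of_pos h2X]
    have h1 : |x ω - x ω'| ≤ 2 * 2 ^ a := (abs_sub _ _).trans (by linarith only [hx, c, d, hx ω c, hx ω' d])
    calc (2 : ℝ) ^ X * |x ω - x ω'| ≤ 2 ^ X * (2 * 2 ^ a) := mul_le_mul_of_nonneg_left h1 h2X.le
      _ = 2 ^ (X + a + 1) := by rw [pow_succ, pow_add]; ring)
  refine key.trans ?_
  have h3 : (1 : ℝ) ≤ 2 ^ (X + a + 1) := one_le_pow₀ (by norm_num)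
  have h4 : Real.log (2 * (2 ^ (X + a + 1) + 1) + 1) ≤ Real.log (2 ^ (X + a + 4)) := by
    refine Real.log_le_log (by positivity) ?_
    have : (2 : ℝ) ^ (X + a + 4) = 2 ^ (X + a + 1) * 8 := by
      rw [show X + a + 4 = (X + a + 1) + 3 from rfl, pow_add]
      norm_num
    rw [this]
    linarith only [h3]
  refine h4.trans (le_of_eq ?_)
  rw [Real.log_pow]
  push_cast
  ring

theorem _root_.Pool.OCSR.RData.cond {K : ℝ} {p : Ω → ℝ} {b : Ω → β} {L : Ω → Λ} {T : Ω → Θ}
    {y om : Ω → Fin 2 → ℝ} {be m0 th : Ω → ℝ} {S : Ω → Fin 2 → ℝ} {E nu : Ω → ℝ}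
    (h : RData K p b L T y om be m0 th S E nu) {z : β} (hz : 0 < law p b z) :
    RData K (Pool.Agent.H49.Ent.cond p b z) (fun _ => ()) L T y om be m0 th S E nu := by
  have h0 := h.law.nonneg
  have hp : ∀ ω, 0 < Pool.Agent.H49.Ent.cond p b z ω → 0 < p ω ∧ b ω = z := fun ω hω =>
    (cond_pos_iff h0 b z ω).1 hω
  have key : ∀ {τ σ : Type} {A : Ω → τ} {x : Ω → σ}, Det p (fun ω => (b ω, A ω)) x →
      Det (Pool.Agent.H49.Ent.cond p b z) (fun ω => ((), A ω)) x := by
    intro τ σ A x hd ω ω' a a' e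
    obtain ⟨c1, c2⟩ := hp ω a
    obtain ⟨c3, c4⟩ := hp ω' a'
    exact hd ω ω' c1 c3 (Prod.ext (c2.trans c4.symm) (Prod.ext_iff.mp e).2)
  exact ⟨Uni.isLaw_cond' h0 b hz, key h.dy, key h.dom, key h.dbe, key h.dm0, key h.dth, key h.dS,
    key h.dE, fun ω hω => h.hy ω (hp ω hω).1, fun ω hω => h.hom ω (hp ω hω).1,
    fun ω hω => h.hbe ω (hp ω hω).1, fun ω hω => h.hth ω (hp ω hω).1,
    fun ω hω => h.hS ω (hp ω hω).1, fun ω hω => h.hE ω (hp ω hω).1,
    fun ω hω => h.hnu ω (hp ω hω).1⟩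

/-- Mean over the context, the context at another place. -/
theorem Ex_cg {p : Ω → ℝ} (hp : ∀ ω, 0 ≤ p ω) (b : Ω → β) (X : Ω → S) (Y : Ω → T) (Z : Ω → U)
    (h1 : ∀ ω ω', Z ω = Z ω' → Y ω = Y ω' ∧ b ω = b ω')
    (h2 : ∀ ω ω', Y ω = Y ω' → b ω = b ω' → Z ω = Z ω') :
    Ex p (fun ω => CH (Pool.Agent.H49.Ent.cond p b (b ω)) X Y) = CH p X Z := by
  rw [Pool.KX.JBG.Ex_CH hp X Y b]
  refine CH_congr hp ?_ ?_ ?_ ?_
  · intro ω ω' _ _ e
    exact (Prod.ext_iff.mp e).1
  · intro ω ω' _ _ e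
    exact (Prod.ext_iff.mp e).1
  · intro ω ω' _ _ e
    exact h2 ω ω' (Prod.ext_iff.mp e).1 (Prod.ext_iff.mp e).2
  · intro ω ω' _ _ e
    exact Prod.ext (h1 ω ω' e).1 (h1 ω ω' e).2

theorem Ex_sum' {p : Ω → ℝ} (s : Finset ℕ) (f : ℕ → Ω → ℝ) :
    Ex p (fun ω => ∑ i ∈ s, f i ω) = ∑ i ∈ s, Ex p (f i) := by
  unfold Ex
  rw [Finset.sum_comm]
  refine Finset.sum_congr rfl fun ω _ => ?_
  rw [Finset.mul_sum]

end Ocs

theorem r_thm (hOC : Pool.OCS.OCSStmt) : RStmt := by
  classical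
  intro K c ca hc hca
  have hl2 : 0 < Real.log 2 := Real.log_pos (by norm_num)
  have hl21 : Real.log 2 ≤ 1 := by
    have := Real.log_two_lt_d9
    linarith only [hl2, this]
  obtain ⟨a, ha⟩ : ∃ a : ℕ, K ≤ 2 ^ a := by
    obtain ⟨a, ha⟩ := pow_unbounded_of_one_lt K (by norm_num : (1 : ℝ) < 2)
    exact ⟨a, ha.le⟩
  obtain ⟨ca1, hca1⟩ : ∃ ca1, ca1 = min ca 1 := ⟨_, rfl⟩
  have hca1p : 0 < ca1 := by rw [hca1]; exact lt_min hca one_pos
  have hca1c : ca1 ≤ ca := by rw [hca1]; exact min_le_left _ _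
  obtain ⟨x₁, lm₁, κ, ϖ₀, ι₀, ε₀, X₁, hx₁, hlm₁, hκ, hκ1, hϖ₀, hι₀, hε₀, hOC'⟩ :=
    hOC (3 * a + 4) c (ca1 / 4) hc (by positivity)
  obtain ⟨C, hC⟩ : ∃ C, C = Ocs.Cst a := ⟨_, rfl⟩
  have hC0 : 0 ≤ C := by rw [hC]; exact Ocs.Cst_nonneg a
  obtain ⟨n₀, hn₀⟩ := exists_nat_gt (C / (ι₀ / 4 * Real.log 2))
  have hn₀0 : (0 : ℝ) < n₀ := lt_of_le_of_lt (by positivity) hn₀
  have hn₀p : 0 < n₀ := by exact_mod_cast hn₀0
  have hC2 : C ≤ ι₀ / 4 * n₀ * Real.log 2 := by
    rw [div_lt_iff₀ (by positivity)] at hn₀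
    linarith only [hn₀]
  obtain ⟨M, hM⟩ := exists_nat_gt (C / (ι₀ / 2) + 2 * n₀ / (ι₀ / 4) + n₀ / (lm₁ / 2) +
    2 * a / (x₁ / 2) + 2 / κ + C / (ca1 / 4 * Real.log 2) + (a + 4) + 1)
  refine ⟨x₁ / 2, lm₁ / 2, κ, ϖ₀ * (ca1 / 8) * (κ / 2), ι₀ * ca1 / 128, ε₀ * ca1 / 128, max X₁ M,
    by positivity, by positivity, hκ, hκ1, by positivity, by positivity, by positivity, ?_⟩
  intro Ω β Λ Θ _ p b L T y om be m0 th S E nu X lam hd hX hlam h1 h1' h2 h3 h4 h5 h6 h7
  have hXX : X₁ ≤ X := (le_max_left _ _).trans hX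
  have hXM : (M : ℝ) ≤ X := by exact_mod_cast (le_max_right _ _).trans hX
  have hp := hd.law
  exact by
   have h0 := hp.nonneg
   have q1 : 0 ≤ C / (ι₀ / 2) := by positivity
   have q2 : 0 ≤ 2 * n₀ / (ι₀ / 4) := by positivity
   have q3 : 0 ≤ n₀ / (lm₁ / 2) := by positivity
   have q4 : 0 ≤ 2 * a / (x₁ / 2) := by positivity
   have q5 : 0 < 2 / κ := by positivity
   have q6 : 0 ≤ C / (ca1 / 4 * Real.log 2) := by positivity
   have q7 : (0 : ℝ) ≤ a := Nat.cast_nonneg a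
   have hXpos : (0 : ℝ) < X := by linarith only [hM, hXM, q1, q2, q3, q4, q5, q6]
   have r1 : C ≤ ι₀ / 2 * X := by
     have : C / (ι₀ / 2) ≤ X := by linarith only [hM, hXM, q2, q3, q4, q5, q6]
     rw [div_le_iff₀ (by positivity)] at this
     linarith only [this]
   have r2 : 2 * n₀ ≤ ι₀ / 4 * X := by
     have : 2 * n₀ / (ι₀ / 4) ≤ X := by linarith only [hM, hXM, q1, q3, q4, q5, q6]
     rw [div_le_iff₀ (by positivity)] at this
     linarith only [this]
   have r3 : n₀ ≤ lm₁ / 2 * X := by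
     have : n₀ / (lm₁ / 2) ≤ X := by linarith only [hM, hXM, q1, q2, q4, q5, q6]
     rw [div_le_iff₀ (by positivity)] at this
     linarith only [this]
   have r4 : 2 * a ≤ x₁ / 2 * X := by
     have : 2 * a / (x₁ / 2) ≤ X := by linarith only [hM, hXM, q1, q2, q3, q5, q6]
     rw [div_le_iff₀ (by positivity)] at this
     linarith only [this]
   have r5 : 2 ≤ κ * X := by
     have : 2 / κ ≤ X := by linarith only [hM, hXM, q1, q2, q3, q4, q6]
     rw [div_le_iff₀ hκ] at this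
     linarith only [this]
   have r6 : C ≤ ca1 / 4 * X * Real.log 2 := by
     have : C / (ca1 / 4 * Real.log 2) ≤ X := by linarith only [hM, hXM, q1, q2, q3, q4, q5]
     rw [div_le_iff₀ (by positivity)] at this
     linarith only [this]
   exact by
    have r7 : (a : ℝ) + 4 ≤ X := by linarith only [hM, hXM, q1, q2, q3, q4, q5, q6]
    -- the number of blocks
    obtain ⟨h, hh⟩ : ∃ h, h = ⌊κ * X⌋₊ := ⟨_, rfl⟩
    have hh1 : (h : ℝ) ≤ κ * X := by rw [hh]; exact Nat.floor_le (by positivity)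
    have hh2 : κ * X / 2 ≤ h := by
      have : κ * X < h + 1 := by rw [hh]; exact Nat.lt_floor_add_one _
      linarith only [r5, this]
    have hhpos : 0 < h := by
      have : (0 : ℝ) < h := by linarith only [r5, hh2]
      exact_mod_cast this
    -- the laws of the contexts
    obtain ⟨cd, hcd⟩ : ∃ cd : β → Ω → ℝ, cd = fun z => Pool.Agent.H49.Ent.cond p b z := ⟨_, rfl⟩
    have hcl : ∀ ω, 0 < p ω → IsLaw (cd (b ω)) := fun ω hω => by
      rw [hcd]; exact Uni.isLaw_cond' h0 b (law_pos h0 b hω)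
    have hcp : ∀ ω, 0 < p ω → ∀ v, 0 < cd (b ω) v → 0 < p v := fun ω hω v hv => by
      rw [hcd] at hv
      exact ((cond_pos_iff h0 b (b ω) v).1 hv).1
    obtain ⟨F1, hF1⟩ : ∃ F1 : β → ℝ, F1 = fun z => Pool.KVA.MI (cd z) T L (fun _ => ()) :=
      ⟨_, rfl⟩
    obtain ⟨F2, hF2⟩ : ∃ F2 : β → ℝ, F2 = fun z => X * Real.log 2 - CH (cd z) (Uni.dg X th) L :=
      ⟨_, rfl⟩
    obtain ⟨F3, hF3⟩ : ∃ F3 : β → ℝ, F3 = fun z => CH (cd z) (Uni.dg X nu) T -
      CH (cd z) (Uni.dg X nu)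
        (fun ω => ((Ocs.dgv X y ω, (Ocs.dgv X om ω, Uni.dg X be ω)), T ω)) := ⟨_, rfl⟩
    obtain ⟨F4, hF4⟩ : ∃ F4 : β → ℝ, F4 = fun z => 2 * X * Real.log 2 -
      ∑ s ∈ range X, CH (cd z) (Ocs.dgv (s + 1) (Ocs.ptv y om th))
        (fun ω => (Ocs.dgv s (Ocs.ptv y om th) ω, (Ocs.dgv (s - lam) om ω, T ω))) := ⟨_, rfl⟩
    obtain ⟨F6, hF6⟩ : ∃ F6 : β → ℝ, F6 = fun z => Pool.KAF.Pr (dbl (cd z) L)
      {w | ‖S w.1 - S w.2‖ < 2 ^ (2 * a) * (2 : ℝ) ^ (-(x₁ * X))} := ⟨_, rfl⟩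
    obtain ⟨F7, hF7⟩ : ∃ F7 : β → ℝ, F7 = fun z => Pool.KAF.Pr (dbl (cd z) L)
      {w | |E w.1 - E w.2| < 2 ^ (2 * a) * (2 : ℝ) ^ (-(x₁ * X))} := ⟨_, rfl⟩
    exact by
     obtain ⟨Gf, hGf⟩ : ∃ Gf : β → ℝ, Gf = fun z => CH (cd z) (Uni.dg X (fun ω => om ω 0))
       (fun ω => (T ω, Ocs.pdv X y om be th S E ω)) := ⟨_, rfl⟩
     have hthr : 2 ^ (2 * a) * (2 : ℝ) ^ (-(x₁ * X)) ≤ (2 : ℝ) ^ (-(x₁ / 2 * X)) := by
       have e1 : (2 : ℝ) ^ (2 * a) * (2 : ℝ) ^ (-(x₁ * X)) = (2 : ℝ) ^ (2 * a + -(x₁ * X)) := by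
         rw [Real.rpow_add (by norm_num)]
         congr 1
         rw [← Real.rpow_natCast]
         congr 1
         push_cast
         ring
       rw [e1]
       refine Real.rpow_le_rpow_of_exponent_le (by norm_num) ?_
       linarith only [r4]
     -- the means
     have m1 : Ex p (fun ω => F1 (b ω)) ≤ ι₀ * ca1 / 128 * X := by
       rw [hF1, hcd]
       exact (le_of_eq (Uni.Ex_MI h0 b T L)).trans h1
     have m2 : Ex p (fun ω => F2 (b ω)) ≤ ι₀ * ca1 / 128 * X * Real.log 2 := by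
       rw [hF2, hcd]
       have e1 : Ex p (fun ω => X * Real.log 2 - CH (Pool.Agent.H49.Ent.cond p b (b ω))
           (Uni.dg X th) L) = X * Real.log 2 - CH p (Uni.dg X th) (fun ω => (L ω, b ω)) := by
         rw [Ex_sub, Ex_const hp.sum_one, Pool.KX.JBG.Ex_CH h0 (Uni.dg X th) L b]
       refine (le_of_eq e1).trans ?_
       linarith only [h1']
     have m3 : Ex p (fun ω => F3 (b ω)) ≤ ι₀ * ca1 / 128 * X := by
       rw [hF3, hcd]
       refine le_trans (le_of_eq ?_) h2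
       change Ex p (fun ω => CH (Pool.Agent.H49.Ent.cond p b (b ω)) (Uni.dg X nu) T -
         CH (Pool.Agent.H49.Ent.cond p b (b ω)) (Uni.dg X nu)
           (fun ω => ((Ocs.dgv X y ω, (Ocs.dgv X om ω, Uni.dg X be ω)), T ω))) = _
       rw [Ex_sub, Uni.Ex_swap h0, Uni.Ex_swap' h0 b (Uni.dg X nu)
         (fun ω => (Ocs.dgv X y ω, (Ocs.dgv X om ω, Uni.dg X be ω))) T]
     exact by
      have m4 : Ex p (fun ω => F4 (b ω)) ≤ ι₀ * ca1 / 128 * X * Real.log 2 := by
        rw [hF4, hcd]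
        have e1 : Ex p (fun ω => 2 * X * Real.log 2 - ∑ s ∈ range X,
            CH (Pool.Agent.H49.Ent.cond p b (b ω)) (Ocs.dgv (s + 1) (Ocs.ptv y om th))
            (fun ω => (Ocs.dgv s (Ocs.ptv y om th) ω, (Ocs.dgv (s - lam) om ω, T ω)))) =
            2 * X * Real.log 2 - ∑ s ∈ range X, CH p (Ocs.dgv (s + 1) (Ocs.ptv y om th))
            (fun ω => (Ocs.dgv s (Ocs.ptv y om th) ω, (Ocs.dgv (s - lam) om ω, (b ω, T ω)))) := by
          rw [Ex_sub, Ex_const hp.sum_one, Ocs.Ex_sum']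
          congr 1
          refine Finset.sum_congr rfl fun s _ => ?_
          refine Ocs.Ex_cg h0 b _ _ _ (fun ω ω' e => ?_) (fun ω ω' e e' => ?_)
          · have e1 := Prod.ext_iff.mp e
            have e2 := Prod.ext_iff.mp e1.2
            have e3 := Prod.ext_iff.mp e2.2
            exact ⟨Prod.ext e1.1 (Prod.ext e2.1 e3.2), e3.1⟩
          · have e1 := Prod.ext_iff.mp e
            have e2 := Prod.ext_iff.mp e1.2
            exact Prod.ext e1.1 (Prod.ext e2.1 (Prod.ext e' e2.2))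
        refine (le_of_eq e1).trans ?_
        linarith only [h3]
      have m6 : Ex p (fun ω => F6 (b ω)) ≤ ε₀ * ca1 / 128 := by
        rw [hF6, hcd]
        refine (le_of_eq (Uni.Ex_Pr_dbl h0 L b
          (fun _ => {w | ‖S w.1 - S w.2‖ < 2 ^ (2 * a) * (2 : ℝ) ^ (-(x₁ * X))}))).trans ?_
        refine le_trans ?_ h6
        refine Uni.Pr_le_of (fun w => glue_nonneg h0 h0 w) fun w _ hw => ?_
        have hw' : ‖S w.1 - S w.2‖ < 2 ^ (2 * a) * (2 : ℝ) ^ (-(x₁ * X)) := hw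
        exact hw'.trans_le hthr
      have m7 : Ex p (fun ω => F7 (b ω)) ≤ ε₀ * ca1 / 128 := by
        rw [hF7, hcd]
        refine (le_of_eq (Uni.Ex_Pr_dbl h0 L b
          (fun _ => {w | |E w.1 - E w.2| < 2 ^ (2 * a) * (2 : ℝ) ^ (-(x₁ * X))}))).trans ?_
        refine le_trans ?_ h7
        refine Uni.Pr_le_of (fun w => glue_nonneg h0 h0 w) fun w _ hw => ?_
        have hw' : |E w.1 - E w.2| < 2 ^ (2 * a) * (2 : ℝ) ^ (-(x₁ * X)) := hw
        exact hw'.trans_le hthr
      exact by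
       have mG : ca1 * X * Real.log 2 ≤ Ex p (fun ω => Gf (b ω)) := by
         rw [hGf, hcd]
         have e1 : Ex p (fun ω => CH (Pool.Agent.H49.Ent.cond p b (b ω))
             (Uni.dg X (fun ω => om ω 0)) (fun ω => (T ω, Ocs.pdv X y om be th S E ω))) =
             CH p (Uni.dg X (fun ω => om ω 0))
               (fun ω => ((b ω, T ω), Ocs.pdv X y om be th S E ω)) := by
           refine Ocs.Ex_cg h0 b _ _ _ (fun ω ω' e => ?_) (fun ω ω' e e' => ?_)
           · have e1 := Prod.ext_iff.mp e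
             have e2 := Prod.ext_iff.mp e1.1
             exact ⟨Prod.ext e2.2 e1.2, e2.1⟩
           · have e1 := Prod.ext_iff.mp e
             exact Prod.ext (Prod.ext e' e1.1) e1.2
         refine le_trans ?_ (le_of_eq e1.symm)
         refine le_trans ?_ h4
         exact mul_le_mul_of_nonneg_right (mul_le_mul_of_nonneg_right hca1c hXpos.le) hl2.le
       -- the signs
       have n1 : ∀ ω, 0 < p ω → 0 ≤ F1 (b ω) := fun ω hω => by
         rw [hF1]
         have := CH_subadd (hcl ω hω).nonneg T L (fun _ => ())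
         change 0 ≤ CH (cd (b ω)) T (fun _ => ()) + CH (cd (b ω)) L (fun _ => ()) -
           CH (cd (b ω)) (fun v => (T v, L v)) (fun _ => ())
         linarith only [this]
       have n2 : ∀ ω, 0 < p ω → 0 ≤ F2 (b ω) := fun ω hω => by
         rw [hF2]
         have := Uni.dg_card (hcl ω hω) X (x := th) (fun v hv => hd.hth v (hcp ω hω v hv)) L
         change 0 ≤ X * Real.log 2 - CH (cd (b ω)) (Uni.dg X th) L
         linarith only [this]
       have n3 : ∀ ω, 0 < p ω → 0 ≤ F3 (b ω) := fun ω hω => by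
         rw [hF3]
         have : CH (cd (b ω)) (Uni.dg X nu)
             (fun v => ((Ocs.dgv X y v, (Ocs.dgv X om v, Uni.dg X be v)), T v)) ≤
             CH (cd (b ω)) (Uni.dg X nu) T :=
           CH_mono_cond (hcl ω hω).nonneg fun _ _ _ _ e => (Prod.ext_iff.mp e).2
         change 0 ≤ CH (cd (b ω)) (Uni.dg X nu) T - CH (cd (b ω)) (Uni.dg X nu)
           (fun v => ((Ocs.dgv X y v, (Ocs.dgv X om v, Uni.dg X be v)), T v))
         linarith only [this]
       exact by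
        have n4 : ∀ ω, 0 < p ω → 0 ≤ F4 (b ω) := fun ω hω => by
          rw [hF4]
          have hs : ∑ s ∈ range X, CH (cd (b ω)) (Ocs.dgv (s + 1) (Ocs.ptv y om th))
              (fun v => (Ocs.dgv s (Ocs.ptv y om th) v, (Ocs.dgv (s - lam) om v, T v))) ≤
              ∑ _s ∈ range X, 2 * Real.log 2 := by
            refine Finset.sum_le_sum fun s _ => ?_
            refine le_trans (CH_mono_cond (hcl ω hω).nonneg fun v v' _ _ e => ?_)
              (Ocs.CH_step (hcl ω hω) (Ocs.ptv y om th) s)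
            exact (Prod.ext_iff.mp e).1
          rw [Finset.sum_const, card_range, nsmul_eq_mul] at hs
          change 0 ≤ 2 * X * Real.log 2 - ∑ s ∈ range X,
            CH (cd (b ω)) (Ocs.dgv (s + 1) (Ocs.ptv y om th))
              (fun v => (Ocs.dgv s (Ocs.ptv y om th) v, (Ocs.dgv (s - lam) om v, T v)))
          linarith only [hs]
        have n6 : ∀ ω, 0 < p ω → 0 ≤ F6 (b ω) := fun ω hω => by
          rw [hF6]
          exact law_nonneg (fun w => glue_nonneg (hcl ω hω).nonneg (hcl ω hω).nonneg w) _ _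
        have n7 : ∀ ω, 0 < p ω → 0 ≤ F7 (b ω) := fun ω hω => by
          rw [hF7]
          exact law_nonneg (fun w => glue_nonneg (hcl ω hω).nonneg (hcl ω hω).nonneg w) _ _
        have nG : ∀ ω, 0 < p ω → Gf (b ω) ≤ 2 * X * Real.log 2 := fun ω hω => by
          rw [hGf]
          refine (Ocs.dg_card' (hcl ω hω) X a
            (fun v hv => (hd.hom v (hcp ω hω v hv) 0).trans ha) _).trans ?_
          exact mul_le_mul_of_nonneg_right (by linarith only [hM, hXM, q1, q2, q3, q4, q5, q6]) hl2.le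
        -- the good values
        obtain ⟨G, hG⟩ : ∃ G : β → Prop, G = fun z => F1 z ≤ ι₀ * X ∧ F2 z ≤ ι₀ * X * Real.log 2 ∧
          F3 z ≤ ι₀ / 2 * X ∧ F4 z ≤ ι₀ / 2 * X * Real.log 2 ∧ F6 z ≤ ε₀ ∧ F7 z ≤ ε₀ ∧
          ca1 / 2 * X * Real.log 2 ≤ Gf z := ⟨_, rfl⟩
        have hXl : 0 < X * Real.log 2 := by positivity
        exact by
         have hGmass : ca1 / 8 ≤ Pe p (fun ω => G (b ω)) := by
           have p1 : Pe p (fun ω => ι₀ * X < F1 (b ω)) ≤ ca1 / 128 := by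
             refine (Uni.Pe_markov hp (fun ω => F1 (b ω)) n1 (by positivity)).trans ?_
             rw [div_le_iff₀ (by positivity)]
             linarith only [m1]
           have p2 : Pe p (fun ω => ι₀ * X * Real.log 2 < F2 (b ω)) ≤ ca1 / 128 := by
             refine (Uni.Pe_markov hp (fun ω => F2 (b ω)) n2 (by positivity)).trans ?_
             rw [div_le_iff₀ (by positivity)]
             linarith only [m2]
           have p3 : Pe p (fun ω => ι₀ / 2 * X < F3 (b ω)) ≤ ca1 / 64 := by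
             refine (Uni.Pe_markov hp (fun ω => F3 (b ω)) n3 (by positivity)).trans ?_
             rw [div_le_iff₀ (by positivity)]
             linarith only [m3]
           have p4 : Pe p (fun ω => ι₀ / 2 * X * Real.log 2 < F4 (b ω)) ≤ ca1 / 64 := by
             refine (Uni.Pe_markov hp (fun ω => F4 (b ω)) n4 (by positivity)).trans ?_
             rw [div_le_iff₀ (by positivity)]
             linarith only [m4]
           have p6 : Pe p (fun ω => ε₀ < F6 (b ω)) ≤ ca1 / 128 := by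
             refine (Uni.Pe_markov hp (fun ω => F6 (b ω)) n6 (by positivity)).trans ?_
             rw [div_le_iff₀ (by positivity)]
             linarith only [m6]
           have p7 : Pe p (fun ω => ε₀ < F7 (b ω)) ≤ ca1 / 128 := by
             refine (Uni.Pe_markov hp (fun ω => F7 (b ω)) n7 (by positivity)).trans ?_
             rw [div_le_iff₀ (by positivity)]
             linarith only [m7]
           have pG : ca1 / 4 ≤ Pe p (fun ω => ca1 / 2 * X * Real.log 2 ≤ Gf (b ω)) := by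
             refine le_trans (le_of_eq ?_) (Uni.Pe_reverse hp (fun ω => Gf (b ω))
               (by linarith only [hXl] : 0 < 2 * X * Real.log 2) nG mG (by positivity))
             field_simp
             ring
           have hcov : Pe p (fun ω => ca1 / 2 * X * Real.log 2 ≤ Gf (b ω)) ≤
               Pe p (fun ω => G (b ω) ∨ (ι₀ * X < F1 (b ω) ∨ (ι₀ * X * Real.log 2 < F2 (b ω) ∨
                 (ι₀ / 2 * X < F3 (b ω) ∨ (ι₀ / 2 * X * Real.log 2 < F4 (b ω) ∨ (ε₀ < F6 (b ω) ∨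
                   ε₀ < F7 (b ω))))))) := by
             refine Uni.Pe_le_of h0 fun ω _ hω => ?_
             by_cases c1 : ι₀ * X < F1 (b ω)
             · exact Or.inr (Or.inl c1)
             by_cases c2 : ι₀ * X * Real.log 2 < F2 (b ω)
             · exact Or.inr (Or.inr (Or.inl c2))
             by_cases c3 : ι₀ / 2 * X < F3 (b ω)
             · exact Or.inr (Or.inr (Or.inr (Or.inl c3)))
             by_cases c4 : ι₀ / 2 * X * Real.log 2 < F4 (b ω)
             · exact Or.inr (Or.inr (Or.inr (Or.inr (Or.inl c4))))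
             by_cases c6 : ε₀ < F6 (b ω)
             · exact Or.inr (Or.inr (Or.inr (Or.inr (Or.inr (Or.inl c6)))))
             by_cases c7 : ε₀ < F7 (b ω)
             · exact Or.inr (Or.inr (Or.inr (Or.inr (Or.inr (Or.inr c7)))))
             left
             rw [hG]
             exact ⟨not_lt.mp c1, not_lt.mp c2, not_lt.mp c3, not_lt.mp c4, not_lt.mp c6,
               not_lt.mp c7, hω⟩
           have k1 := Uni.Pe_or_le h0 (fun ω => G (b ω)) (fun ω => (ι₀ * X < F1 (b ω) ∨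
             (ι₀ * X * Real.log 2 < F2 (b ω) ∨ (ι₀ / 2 * X < F3 (b ω) ∨
             (ι₀ / 2 * X * Real.log 2 < F4 (b ω) ∨ (ε₀ < F6 (b ω) ∨ ε₀ < F7 (b ω)))))))
           have k2 := Uni.Pe_or_le h0 (fun ω => ι₀ * X < F1 (b ω)) (fun ω =>
             (ι₀ * X * Real.log 2 < F2 (b ω) ∨ (ι₀ / 2 * X < F3 (b ω) ∨
             (ι₀ / 2 * X * Real.log 2 < F4 (b ω) ∨ (ε₀ < F6 (b ω) ∨ ε₀ < F7 (b ω))))))
           have k3 := Uni.Pe_or_le h0 (fun ω => ι₀ * X * Real.log 2 < F2 (b ω)) (fun ω =>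
             (ι₀ / 2 * X < F3 (b ω) ∨ (ι₀ / 2 * X * Real.log 2 < F4 (b ω) ∨ (ε₀ < F6 (b ω) ∨
               ε₀ < F7 (b ω)))))
           have k4 := Uni.Pe_or_le h0 (fun ω => ι₀ / 2 * X < F3 (b ω)) (fun ω =>
             (ι₀ / 2 * X * Real.log 2 < F4 (b ω) ∨ (ε₀ < F6 (b ω) ∨ ε₀ < F7 (b ω))))
           have k5 := Uni.Pe_or_le h0 (fun ω => ι₀ / 2 * X * Real.log 2 < F4 (b ω))
             (fun ω => (ε₀ < F6 (b ω) ∨ ε₀ < F7 (b ω)))
           have k6 := Uni.Pe_or_le h0 (fun ω => ε₀ < F6 (b ω)) (fun ω => ε₀ < F7 (b ω))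
           linarith only [hca1p, p1, p2, p3, p4, p6, p7, pG, hcov, k1, k2, k3, k4, k5, k6]
         -- the events
         exact by
          obtain ⟨n, hn⟩ : ∃ n, n = X / h := ⟨_, rfl⟩
          have hex : ∀ z, G z → 0 < law p b z → ∃ (r : Fin n) (A : Ω → Prop),
              ϖ₀ ≤ Pe (Pool.Agent.H49.Ent.cond p b z) A ∧
              (1 - c) * h * Real.log 2 < CH (Pool.Agent.H49.Ent.cond (Pool.Agent.H49.Ent.cond p b z) A True)
                (Uni.dg (((r : ℕ) + 1) * h) nu) (fun ω => (Uni.dg ((r : ℕ) * h) nu ω, T ω)) := by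
            intro z hz hlz
            rw [hG] at hz
            obtain ⟨g1, g2, g3, g4, g6, g7, gG⟩ := hz
            rw [hF1, hcd] at g1
            rw [hF2, hcd] at g2
            rw [hF3, hcd] at g3
            rw [hF4, hcd] at g4
            rw [hF6, hcd] at g6
            rw [hF7, hcd] at g7
            rw [hGf, hcd] at gG
            have hq := Uni.isLaw_cond' h0 b hlz
            obtain ⟨j, hj, A, hA1, hA2⟩ := Ocs.ocs_one (lam := lam) (n := n₀) hOC' ha (RData.cond hd hlz) hXX hn₀p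
              (by push_cast; linarith only [hlam, r3]) (by rw [← hC]; exact r1) (by rw [← hC]; exact hC2) r2 g1
              (by
                have : X * Real.log 2 - CH (Pool.Agent.H49.Ent.cond p b z) (Uni.dg X th) L ≤
                  ι₀ * X * Real.log 2 := g2
                linarith only [g2])
              g3
              (by
                have : 2 * X * Real.log 2 - ∑ s ∈ range X,
                  CH (Pool.Agent.H49.Ent.cond p b z) (Ocs.dgv (s + 1) (Ocs.ptv y om th))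
                  (fun ω => (Ocs.dgv s (Ocs.ptv y om th) ω, (Ocs.dgv (s - lam) om ω, T ω))) ≤
                  ι₀ / 2 * X * Real.log 2 := g4
                linarith only [g4])
              (by
                have : ca1 / 2 * X * Real.log 2 ≤ CH (Pool.Agent.H49.Ent.cond p b z)
                  (Uni.dg X (fun ω => om ω 0)) (fun ω => (T ω, Ocs.pdv X y om be th S E ω)) := gG
                rw [← hC]
                linarith only [r6, gG]) g6 g7
            rw [← hh] at hj hA2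
            have hjn : j < n := by
              rw [hn]
              exact (Nat.le_div_iff_mul_le hhpos).2 hj
            exact ⟨⟨j, hjn⟩, A, hA1, hA2⟩
          exact by
           obtain ⟨r, A, hA1, hA2⟩ := Uni.union_event hp b G hϖ₀ (by positivity : 0 < ca1 / 8)
             ((1 - c) * h * Real.log 2) (fun (r : Fin n) => Uni.dg (((r : ℕ) + 1) * h) nu)
             (fun (r : Fin n) ω => (Uni.dg ((r : ℕ) * h) nu ω, T ω)) hGmass hex
           have hrX : ((r : ℕ) + 1) * h ≤ X := by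
             have h1 : (r : ℕ) + 1 ≤ X / h := by
               rw [← hn]
               exact r.2
             exact (Nat.le_div_iff_mul_le hhpos).1 h1
           have hnr : (0 : ℝ) < n := by
             have : 0 < n := lt_of_le_of_lt (Nat.zero_le _) r.2
             exact_mod_cast this
           have hn2 : (n : ℝ) ≤ 2 / κ := by
             have e1 : n * h ≤ X := by rw [hn]; exact Nat.div_mul_le_self X h
             have e2 : (n : ℝ) * h ≤ X := by exact_mod_cast e1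
             rw [le_div_iff₀ hκ]
             have e3 : (n : ℝ) * (κ * X / 2) ≤ X := (mul_le_mul_of_nonneg_left hh2 hnr.le).trans e2
             have e4 : (n : ℝ) * κ * X ≤ 2 * X := by linarith only [e3]
             exact le_of_mul_le_mul_right e4 hXpos
           have hPeA : ϖ₀ * (ca1 / 8) * (κ / 2) ≤ Pe p A := by
             refine le_trans ?_ hA1
             rw [le_div_iff₀ hnr]
             have e1 : (n : ℝ) * κ ≤ 2 := by
               rw [le_div_iff₀ hκ] at hn2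
               exact hn2
             have e2 : ϖ₀ * (ca1 / 8) * ((n : ℝ) * κ) ≤ ϖ₀ * (ca1 / 8) * 2 :=
               mul_le_mul_of_nonneg_left e1 (by positivity)
             linarith only [e2]
           have hfin := h5 (r : ℕ) (by rw [← hh]; exact hrX) A hPeA
           rw [← hh] at hfin
           have hqA : IsLaw (Pool.Agent.H49.Ent.cond p A True) :=
             isLaw_cond hp (lt_of_lt_of_le (by positivity) hPeA)
           exact by
            have hsw : CH (Pool.Agent.H49.Ent.cond p A True) (Uni.dg (((r : ℕ) + 1) * h) nu)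
                (fun ω => ((Uni.dg ((r : ℕ) * h) nu ω, T ω), b ω)) =
                CH (Pool.Agent.H49.Ent.cond p A True) (Uni.dg (((r : ℕ) + 1) * h) nu)
                (fun ω => (Uni.dg ((r : ℕ) * h) nu ω, (b ω, T ω))) := by
              refine CH_congr hqA.nonneg ?_ ?_ ?_ ?_
              · intro ω ω' _ _ e
                exact (Prod.ext_iff.mp e).1
              · intro ω ω' _ _ e
                exact (Prod.ext_iff.mp e).1
              · intro ω ω' _ _ e
                have e1 := Prod.ext_iff.mp e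
                have e2 := Prod.ext_iff.mp e1.1
                exact Prod.ext e2.1 (Prod.ext e1.2 e2.2)
              · intro ω ω' _ _ e
                have e1 := Prod.ext_iff.mp e
                have e2 := Prod.ext_iff.mp e1.2
                exact Prod.ext (Prod.ext e1.1 e2.2) e2.1
            linarith only [hA2, hfin, hsw]

end Pool.OCSR
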