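import Pool.Agent.H8.OCS.Round

/-!
# Theorem OCS for real variables, one value of the context

`RData K p b L T y om be m0 th S E nu`: real random variables. `y`, `om`, `be`, `m0` are
functions of the line and of the context `b`; the time `th`, the slope `S` and the direction `E`
are functions of the generalised time `T` and of the context; all are bounded by `K`;
`nu = m0 + th be - S . (y + th om)` is the normal position.
-/

set_option autoImplicit false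

namespace Pool.OCSR

open Finset Real
open Pool.Agent.H49.Ent Pool.Agent.H32.Dense Pool.STK Pool.KA Pool.K2S

variable {Ω Λ Θ : Type} [Fintype Ω]

/-- The data of theorem OCS with real variables. `b` is the context. -/
structure RData {β : Type} (K : ℝ) (p : Ω → ℝ) (b : Ω → β) (L : Ω → Λ) (T : Ω → Θ)
    (y om : Ω → Fin 2 → ℝ) (be m0 th : Ω → ℝ) (S : Ω → Fin 2 → ℝ) (E nu : Ω → ℝ) : Prop where
  law : IsLaw p
  dy : Det p (fun ω => (b ω, L ω)) y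
  dom : Det p (fun ω => (b ω, L ω)) om
  dbe : Det p (fun ω => (b ω, L ω)) be
  dm0 : Det p (fun ω => (b ω, L ω)) m0
  dth : Det p (fun ω => (b ω, T ω)) th
  dS : Det p (fun ω => (b ω, T ω)) S
  dE : Det p (fun ω => (b ω, T ω)) E
  hy : ∀ ω, 0 < p ω → ∀ j, |y ω j| ≤ K
  hom : ∀ ω, 0 < p ω → ∀ j, |om ω j| ≤ K
  hbe : ∀ ω, 0 < p ω → |be ω| ≤ K
  hth : ∀ ω, 0 < p ω → 0 ≤ th ω ∧ th ω < 1
  hS : ∀ ω, 0 < p ω → ∀ j, |S ω j| ≤ K
  hE : ∀ ω, 0 < p ω → |E ω| ≤ K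
  hnu : ∀ ω, 0 < p ω → nu ω = m0 ω + th ω * be ω - ∑ j, S ω j * (y ω j + th ω * om ω j)

namespace Ocs

open Uni (dg)

/-- The digits of a vector. -/
noncomputable def dgv (X : ℕ) (y : Ω → Fin 2 → ℝ) (ω : Ω) (j : Fin 2) : ℤ := ⌊(2 : ℝ) ^ X * y ω j⌋

/-- The tangential position at the time of the sample. -/
def ptv (y om : Ω → Fin 2 → ℝ) (th : Ω → ℝ) (ω : Ω) (j : Fin 2) : ℝ := y ω j + th ω * om ω j

/-- The normal velocity relative to the plank. -/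
noncomputable def ctv (be : Ω → ℝ) (S om : Ω → Fin 2 → ℝ) (ω : Ω) : ℝ :=
  be ω - ∑ j, S ω j * om ω j

/-- The transversal velocity relative to the fan direction. -/
def kav (E : Ω → ℝ) (om : Ω → Fin 2 → ℝ) (ω : Ω) : ℝ := om ω 1 - E ω * om ω 0

/-- The data of the exact point to `X` digits. -/
noncomputable def pdv (X : ℕ) (y om : Ω → Fin 2 → ℝ) (be th : Ω → ℝ) (S : Ω → Fin 2 → ℝ)
    (E : Ω → ℝ) (ω : Ω) : (Fin 2 → ℤ) × ℤ × ℤ :=
  (dgv X (ptv y om th) ω, dg X (ctv be S om) ω, dg X (kav E om) ω)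

/-- The scaling of the two components. -/
def ex (a : ℕ) : Fin 2 → ℕ := ![2 * a, a]

theorem ex_le (a : ℕ) (j : Fin 2) : a ≤ ex a j ∧ ex a j ≤ 2 * a := by
  fin_cases j
  · change a ≤ 2 * a ∧ 2 * a ≤ 2 * a
    omega
  · change a ≤ a ∧ a ≤ 2 * a
    omega

/-- A variable which is determined by a label is a function of the label. -/
theorem exists_fun' {S : Type} [Nonempty S] {q : Ω → ℝ} {L : Ω → Λ} {y : Ω → S} (h : Det q L y) :
    ∃ f : Λ → S, ∀ ω, 0 < q ω → y ω = f (L ω) := by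
  classical
  obtain ⟨s₀⟩ := (inferInstance : Nonempty S)
  refine ⟨fun a => if h : ∃ ω, 0 < q ω ∧ L ω = a then y h.choose else s₀, fun ω hω => ?_⟩
  have hex : ∃ ω', 0 < q ω' ∧ L ω' = L ω := ⟨ω, hω, rfl⟩
  dsimp only
  rw [dif_pos hex]
  exact h ω _ hω hex.choose_spec.1 hex.choose_spec.2.symm

open Classical in
/-- The data with integer variables. -/
noncomputable def mkS (a : ℕ) (q : Ω → ℝ) (L : Ω → Λ) (T : Ω → Θ) (fy fom : Λ → Fin 2 → ℝ)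
    (fbe : Λ → ℝ) (fth : Θ → ℝ) (fS : Θ → Fin 2 → ℝ) (fE : Θ → ℝ) (nu : Ω → ℝ) (X : ℕ) :
    Pool.OCS.Dat where
  Om := Ω
  Lam := Λ
  Tau := Θ
  P := q
  L := L
  T := T
  y := fun l j => ⌊(2 : ℝ) ^ X * (2 ^ ex a j * fy l j)⌋
  om := fun l j => ⌊(2 : ℝ) ^ X * (2 ^ ex a j * fom l j)⌋
  be := fun l => ⌊(2 : ℝ) ^ X * fbe l⌋
  N := dg X nu
  th := fun t => if 0 ≤ fth t ∧ fth t < 1 then fth t else 0
  S := fun t j => if |fS t j| ≤ 2 ^ a then fS t j / 2 ^ ex a j else 0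
  E := fun t => if |fE t| ≤ 2 ^ a then fE t / 2 ^ a else 0
  X := X

/-- The functions of the data on the support. -/
structure Rep (a : ℕ) (q : Ω → ℝ) (L : Ω → Λ) (T : Ω → Θ) (fy fom : Λ → Fin 2 → ℝ)
    (fbe fm : Λ → ℝ) (fth : Θ → ℝ) (fS : Θ → Fin 2 → ℝ) (fE : Θ → ℝ) (y om : Ω → Fin 2 → ℝ)
    (be m0 th : Ω → ℝ) (S : Ω → Fin 2 → ℝ) (E nu : Ω → ℝ) : Prop where
  law : IsLaw q
  ey : ∀ ω, 0 < q ω → y ω = fy (L ω)
  eom : ∀ ω, 0 < q ω → om ω = fom (L ω)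
  ebe : ∀ ω, 0 < q ω → be ω = fbe (L ω)
  em : ∀ ω, 0 < q ω → m0 ω = fm (L ω)
  eth : ∀ ω, 0 < q ω → th ω = fth (T ω)
  eS : ∀ ω, 0 < q ω → S ω = fS (T ω)
  eE : ∀ ω, 0 < q ω → E ω = fE (T ω)
  hy : ∀ ω, 0 < q ω → ∀ j, |y ω j| ≤ 2 ^ a
  hom : ∀ ω, 0 < q ω → ∀ j, |om ω j| ≤ 2 ^ a
  hbe : ∀ ω, 0 < q ω → |be ω| ≤ 2 ^ a
  hth : ∀ ω, 0 < q ω → 0 ≤ th ω ∧ th ω < 1
  hS : ∀ ω, 0 < q ω → ∀ j, |S ω j| ≤ 2 ^ a
  hE : ∀ ω, 0 < q ω → |E ω| ≤ 2 ^ a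
  hnu : ∀ ω, 0 < q ω → nu ω = m0 ω + th ω * be ω - ∑ j, S ω j * (y ω j + th ω * om ω j)

theorem exists_rep {K : ℝ} {a : ℕ} (hK : K ≤ 2 ^ a) {q : Ω → ℝ} {L : Ω → Λ} {T : Ω → Θ}
    {y om : Ω → Fin 2 → ℝ} {be m0 th : Ω → ℝ} {S : Ω → Fin 2 → ℝ} {E nu : Ω → ℝ}
    (hd : RData K q (fun _ => ()) L T y om be m0 th S E nu) :
    ∃ (fy fom : Λ → Fin 2 → ℝ) (fbe fm : Λ → ℝ) (fth : Θ → ℝ) (fS : Θ → Fin 2 → ℝ) (fE : Θ → ℝ),
      Rep a q L T fy fom fbe fm fth fS fE y om be m0 th S E nu := by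
  have det : ∀ {τ : Type} {x : Ω → τ}, Det q (fun ω => ((), L ω)) x → Det q L x :=
    fun h ω ω' a b e => h ω ω' a b (Prod.ext rfl e)
  have detT : ∀ {τ : Type} {x : Ω → τ}, Det q (fun ω => ((), T ω)) x → Det q T x :=
    fun h ω ω' a b e => h ω ω' a b (Prod.ext rfl e)
  obtain ⟨fy, hfy⟩ := exists_fun' (det hd.dy)
  obtain ⟨fom, hfom⟩ := exists_fun' (det hd.dom)
  obtain ⟨fbe, hfbe⟩ := exists_fun' (det hd.dbe)
  obtain ⟨fm, hfm⟩ := exists_fun' (det hd.dm0)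
  obtain ⟨fth, hfth⟩ := exists_fun' (detT hd.dth)
  obtain ⟨fS, hfS⟩ := exists_fun' (detT hd.dS)
  obtain ⟨fE, hfE⟩ := exists_fun' (detT hd.dE)
  exact ⟨fy, fom, fbe, fm, fth, fS, fE, hd.law, hfy, hfom, hfbe, hfm, hfth, hfS, hfE,
    fun ω hω j => (hd.hy ω hω j).trans hK, fun ω hω j => (hd.hom ω hω j).trans hK,
    fun ω hω => (hd.hbe ω hω).trans hK, hd.hth, fun ω hω j => (hd.hS ω hω j).trans hK,
    fun ω hω => (hd.hE ω hω).trans hK, hd.hnu⟩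

section rep

variable {a : ℕ} {q : Ω → ℝ} {L : Ω → Λ} {T : Ω → Θ} {fy fom : Λ → Fin 2 → ℝ}
  {fbe fm : Λ → ℝ} {fth : Θ → ℝ} {fS : Θ → Fin 2 → ℝ} {fE : Θ → ℝ} {y om : Ω → Fin 2 → ℝ}
  {be m0 th : Ω → ℝ} {S : Ω → Fin 2 → ℝ} {E nu : Ω → ℝ} {X : ℕ}

/-- The values of the time. -/
theorem val_th (h : Rep a q L T fy fom fbe fm fth fS fE y om be m0 th S E nu) {ω : Ω}
    (hω : 0 < q ω) : (mkS a q L T fy fom fbe fth fS fE nu X).th (T ω) = th ω := by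
  change (if 0 ≤ fth (T ω) ∧ fth (T ω) < 1 then fth (T ω) else 0) = th ω
  rw [← h.eth ω hω, if_pos (h.hth ω hω)]

theorem val_S (h : Rep a q L T fy fom fbe fm fth fS fE y om be m0 th S E nu) {ω : Ω}
    (hω : 0 < q ω) (j : Fin 2) :
    (mkS a q L T fy fom fbe fth fS fE nu X).S (T ω) j = S ω j / 2 ^ ex a j := by
  change (if |fS (T ω) j| ≤ 2 ^ a then fS (T ω) j / 2 ^ ex a j else 0) = _
  rw [← h.eS ω hω, if_pos (h.hS ω hω j)]

theorem val_E (h : Rep a q L T fy fom fbe fm fth fS fE y om be m0 th S E nu) {ω : Ω}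
    (hω : 0 < q ω) : (mkS a q L T fy fom fbe fth fS fE nu X).E (T ω) = E ω / 2 ^ a := by
  change (if |fE (T ω)| ≤ 2 ^ a then fE (T ω) / 2 ^ a else 0) = _
  rw [← h.eE ω hω, if_pos (h.hE ω hω)]

theorem val_y (h : Rep a q L T fy fom fbe fm fth fS fE y om be m0 th S E nu) {ω : Ω}
    (hω : 0 < q ω) (j : Fin 2) : (mkS a q L T fy fom fbe fth fS fE nu X).yR (L ω) j =
      ⌊(2 : ℝ) ^ X * (2 ^ ex a j * y ω j)⌋ / 2 ^ X := by
  change (⌊(2 : ℝ) ^ X * (2 ^ ex a j * fy (L ω) j)⌋ : ℝ) / 2 ^ X = _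
  rw [← h.ey ω hω]

theorem val_om (h : Rep a q L T fy fom fbe fm fth fS fE y om be m0 th S E nu) {ω : Ω}
    (hω : 0 < q ω) (j : Fin 2) : (mkS a q L T fy fom fbe fth fS fE nu X).omR (L ω) j =
      ⌊(2 : ℝ) ^ X * (2 ^ ex a j * om ω j)⌋ / 2 ^ X := by
  change (⌊(2 : ℝ) ^ X * (2 ^ ex a j * fom (L ω) j)⌋ : ℝ) / 2 ^ X = _
  rw [← h.eom ω hω]

theorem val_be (h : Rep a q L T fy fom fbe fm fth fS fE y om be m0 th S E nu) {ω : Ω}
    (hω : 0 < q ω) : (mkS a q L T fy fom fbe fth fS fE nu X).beR (L ω) =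
      ⌊(2 : ℝ) ^ X * be ω⌋ / 2 ^ X := by
  change (⌊(2 : ℝ) ^ X * fbe (L ω)⌋ : ℝ) / 2 ^ X = _
  rw [← h.ebe ω hω]

/-! ### sizes -/

theorem siz {a X : ℕ} {x : ℝ} {e : ℕ} (hx : |x| ≤ 2 ^ a) (he : e ≤ 2 * a) :
    |(⌊(2 : ℝ) ^ X * (2 ^ e * x)⌋ : ℝ) / 2 ^ X| ≤ 2 ^ (3 * a + 4) := by
  have h2X : (0 : ℝ) < 2 ^ X := by positivity
  have h1 := fl_abs ((2 : ℝ) ^ X * (2 ^ e * x))
  have h2 : |(2 : ℝ) ^ e * x| ≤ 2 ^ (3 * a) := by
    rw [abs_mul, abs_of_pos (by positivity : (0 : ℝ) < 2 ^ e)]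
    calc (2 : ℝ) ^ e * |x| ≤ 2 ^ (2 * a) * 2 ^ a :=
          mul_le_mul (pow_le_pow_right₀ (by norm_num) he) hx (abs_nonneg _) (by positivity)
      _ = 2 ^ (3 * a) := by rw [← pow_add]; congr 1; omega
  rw [abs_div, abs_of_pos h2X, div_le_iff₀ h2X]
  have h3 : |(⌊(2 : ℝ) ^ X * (2 ^ e * x)⌋ : ℝ)| ≤ |(2 : ℝ) ^ X * (2 ^ e * x)| + 1 := by
    have e1 : (⌊(2 : ℝ) ^ X * (2 ^ e * x)⌋ : ℝ) = 2 ^ X * (2 ^ e * x) -
      (2 ^ X * (2 ^ e * x) - ⌊(2 : ℝ) ^ X * (2 ^ e * x)⌋) := by ring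
    rw [e1]
    exact (abs_sub _ _).trans (by linarith)
  refine h3.trans ?_
  rw [abs_mul, abs_of_pos h2X]
  have h4 : (2 : ℝ) ^ X * |(2 : ℝ) ^ e * x| ≤ 2 ^ X * 2 ^ (3 * a) :=
    mul_le_mul_of_nonneg_left h2 h2X.le
  have h5 : (2 : ℝ) ^ (3 * a + 4) = 2 ^ (3 * a) * 16 := by rw [pow_add]; norm_num
  have h6 : (1 : ℝ) ≤ 2 ^ (3 * a) := one_le_pow₀ (by norm_num)
  have h7 : (1 : ℝ) ≤ 2 ^ X := one_le_pow₀ (by norm_num)
  rw [h5]
  nlinarith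

theorem siz_be {a X : ℕ} {x : ℝ} (hx : |x| ≤ 2 ^ a) :
    |(⌊(2 : ℝ) ^ X * x⌋ : ℝ) / 2 ^ X| ≤ 2 ^ (3 * a + 4) := by
  have h := siz (X := X) (e := 0) hx (Nat.zero_le _)
  rwa [pow_zero, one_mul] at h

/-- Rounding of one component of the form. -/
theorem comp_round {u g y Y s s' : ℝ} (hg : 0 < g) (h1 : |s / g| ≤ 1) (h2 : |s' / g| ≤ 1)
    (n : |u * (g * y) - Y| ≤ 1) : |u * ((s' - s) * y) - (s' / g - s / g) * Y| ≤ 2 := by
  have e : u * ((s' - s) * y) - (s' / g - s / g) * Y = (s' / g - s / g) * (u * (g * y) - Y) := by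
    field_simp
  rw [e, abs_mul]
  have h3 : |s' / g - s / g| ≤ 2 := (abs_sub _ _).trans (by linarith)
  calc |s' / g - s / g| * |u * (g * y) - Y| ≤ 2 * 1 :=
        mul_le_mul h3 n (abs_nonneg _) (by norm_num)
    _ = 2 := by norm_num

theorem div_one' {a e : ℕ} (h : a ≤ e) {s : ℝ} (hs : |s| ≤ 2 ^ a) : |s / 2 ^ e| ≤ 1 := by
  rw [abs_div, abs_of_pos (by positivity : (0 : ℝ) < 2 ^ e), div_le_one (by positivity)]
  exact hs.trans (pow_le_pow_right₀ (by norm_num) h)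

/-- The basic assumptions. -/
theorem ok_mkS (h : Rep a q L T fy fom fbe fm fth fS fE y om be m0 th S E nu) :
    (mkS a q L T fy fom fbe fth fS fE nu X).OK (3 * a + 4) := by
  classical
  have h2X : (0 : ℝ) < 2 ^ X := by positivity
  refine ⟨h.law, ?_, ?_, ?_, ?_, ?_, ?_, ?_, ?_⟩
  · intro ω hω j
    rw [show (mkS a q L T fy fom fbe fth fS fE nu X).L ω = L ω from rfl, val_y h hω j]
    exact siz (h.hy ω hω j) (ex_le a j).2
  · intro ω hω j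
    rw [show (mkS a q L T fy fom fbe fth fS fE nu X).L ω = L ω from rfl, val_om h hω j]
    exact siz (h.hom ω hω j) (ex_le a j).2
  · intro ω hω
    rw [show (mkS a q L T fy fom fbe fth fS fE nu X).L ω = L ω from rfl, val_be h hω]
    exact siz_be (h.hbe ω hω)
  · intro ω ω' c d e
    have e1 : L ω = L ω' := (Prod.ext_iff.mp e).1
    have e2 : T ω = T ω' := (Prod.ext_iff.mp e).2
    change ⌊(2 : ℝ) ^ X * nu ω⌋ = ⌊(2 : ℝ) ^ X * nu ω'⌋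
    rw [h.hnu ω c, h.hnu ω' d, h.ey ω c, h.ey ω' d, h.eom ω c, h.eom ω' d, h.ebe ω c, h.ebe ω' d,
      h.em ω c, h.em ω' d, h.eth ω c, h.eth ω' d, h.eS ω c, h.eS ω' d, e1, e2]
  · intro t
    change 0 ≤ (if 0 ≤ fth t ∧ fth t < 1 then fth t else 0) ∧
      (if 0 ≤ fth t ∧ fth t < 1 then fth t else 0) < 1
    by_cases h : 0 ≤ fth t ∧ fth t < 1
    · rw [if_pos h]
      exact h
    · rw [if_neg h]
      exact ⟨le_rfl, one_pos⟩
  · intro t j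
    change |(if |fS t j| ≤ 2 ^ a then fS t j / 2 ^ ex a j else 0)| ≤ 1
    by_cases h : |fS t j| ≤ 2 ^ a
    · rw [if_pos h]
      exact div_one' (ex_le a j).1 h
    · rw [if_neg h, abs_zero]
      exact zero_le_one
  · intro t
    change |(if |fE t| ≤ 2 ^ a then fE t / 2 ^ a else 0)| ≤ 1
    by_cases h : |fE t| ≤ 2 ^ a
    · rw [if_pos h]
      exact div_one' le_rfl h
    · rw [if_neg h, abs_zero]
      exact zero_le_one
  · intro ω ω' c d e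
    have e1 : L ω = L ω' := e
    have hgoal : |((⌊(2 : ℝ) ^ X * nu ω'⌋ : ℝ) - ⌊(2 : ℝ) ^ X * nu ω⌋) - 2 ^ X *
        (((mkS a q L T fy fom fbe fth fS fE nu X).th (T ω') -
          (mkS a q L T fy fom fbe fth fS fE nu X).th (T ω)) *
          (mkS a q L T fy fom fbe fth fS fE nu X).beR (L ω) -
        ∑ j, ((mkS a q L T fy fom fbe fth fS fE nu X).S (T ω') j -
          (mkS a q L T fy fom fbe fth fS fE nu X).S (T ω) j) *
          (mkS a q L T fy fom fbe fth fS fE nu X).yR (L ω) j -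
        ∑ j, ((mkS a q L T fy fom fbe fth fS fE nu X).S (T ω') j *
          (mkS a q L T fy fom fbe fth fS fE nu X).th (T ω') -
          (mkS a q L T fy fom fbe fth fS fE nu X).S (T ω) j *
          (mkS a q L T fy fom fbe fth fS fE nu X).th (T ω)) *
          (mkS a q L T fy fom fbe fth fS fE nu X).omR (L ω) j)| ≤ 2 ^ (3 * a + 4) := by
      rw [val_th h c, val_th h d, val_be h c]
      simp only [Fin.sum_univ_two]
      rw [val_S h c, val_S h d, val_S h c, val_S h d, val_y h c, val_y h c, val_om h c,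
        val_om h c]
      have c1 := h.hnu ω c
      have c2 := h.hnu ω' d
      have d1 : y ω' = y ω := by rw [h.ey ω c, h.ey ω' d, e1]
      have d2 : om ω' = om ω := by rw [h.eom ω c, h.eom ω' d, e1]
      have d3 : be ω' = be ω := by rw [h.ebe ω c, h.ebe ω' d, e1]
      have d4 : m0 ω' = m0 ω := by rw [h.em ω c, h.em ω' d, e1]
      rw [d1, d2, d3, d4, Fin.sum_univ_two] at c2
      rw [Fin.sum_univ_two] at c1
      obtain ⟨t1, t1'⟩ := h.hth ω c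
      obtain ⟨t2, t2'⟩ := h.hth ω' d
      have n1 := fl_abs ((2 : ℝ) ^ X * nu ω)
      have n2 := fl_abs ((2 : ℝ) ^ X * nu ω')
      have n3 := fl_abs ((2 : ℝ) ^ X * be ω)
      have sg : ∀ j, |S ω j / 2 ^ ex a j| ≤ 1 := fun j => div_one' (ex_le a j).1 (h.hS ω c j)
      have sg' : ∀ j, |S ω' j / 2 ^ ex a j| ≤ 1 := fun j => div_one' (ex_le a j).1 (h.hS ω' d j)
      have sgt : ∀ j, |S ω j * th ω / 2 ^ ex a j| ≤ 1 := fun j => by
        have e2 : S ω j * th ω / 2 ^ ex a j = S ω j / 2 ^ ex a j * th ω := by ring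
        rw [e2, abs_mul, abs_of_nonneg t1]
        calc |S ω j / 2 ^ ex a j| * th ω ≤ 1 * 1 :=
              mul_le_mul (sg j) t1'.le t1 zero_le_one
          _ = 1 := one_mul 1
      have sgt' : ∀ j, |S ω' j * th ω' / 2 ^ ex a j| ≤ 1 := fun j => by
        have e2 : S ω' j * th ω' / 2 ^ ex a j = S ω' j / 2 ^ ex a j * th ω' := by ring
        rw [e2, abs_mul, abs_of_nonneg t2]
        calc |S ω' j / 2 ^ ex a j| * th ω' ≤ 1 * 1 :=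
              mul_le_mul (sg' j) t2'.le t2 zero_le_one
          _ = 1 := one_mul 1
      have k1 := fun j => comp_round (u := 2 ^ X) (g := 2 ^ ex a j) (by positivity) (sg j) (sg' j)
        (fl_abs ((2 : ℝ) ^ X * (2 ^ ex a j * y ω j)))
      have k2 := fun j => comp_round (u := 2 ^ X) (g := 2 ^ ex a j) (by positivity) (sgt j)
        (sgt' j) (fl_abs ((2 : ℝ) ^ X * (2 ^ ex a j * om ω j)))
      have k3 : |(th ω' - th ω) * ((2 : ℝ) ^ X * be ω - ⌊(2 : ℝ) ^ X * be ω⌋)| ≤ 1 := by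
        rw [abs_mul]
        have : |th ω' - th ω| ≤ 1 := by
          rw [abs_le]
          constructor <;> linarith
        calc |th ω' - th ω| * |(2 : ℝ) ^ X * be ω - ⌊(2 : ℝ) ^ X * be ω⌋| ≤ 1 * 1 :=
              mul_le_mul this n3 (abs_nonneg _) zero_le_one
          _ = 1 := one_mul 1
      have k10 := k1 0
      have k11 := k1 1
      have k20 := k2 0
      have k21 := k2 1
      obtain ⟨V, hV⟩ : ∃ V, V = ((⌊(2 : ℝ) ^ X * nu ω'⌋ : ℝ) - ⌊(2 : ℝ) ^ X * nu ω⌋) - 2 ^ X *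
        ((th ω' - th ω) * ((⌊(2 : ℝ) ^ X * be ω⌋ : ℝ) / 2 ^ X) -
        ((S ω' 0 / 2 ^ ex a 0 - S ω 0 / 2 ^ ex a 0) *
          ((⌊(2 : ℝ) ^ X * (2 ^ ex a 0 * y ω 0)⌋ : ℝ) / 2 ^ X) +
         (S ω' 1 / 2 ^ ex a 1 - S ω 1 / 2 ^ ex a 1) *
          ((⌊(2 : ℝ) ^ X * (2 ^ ex a 1 * y ω 1)⌋ : ℝ) / 2 ^ X)) -
        ((S ω' 0 / 2 ^ ex a 0 * th ω' - S ω 0 / 2 ^ ex a 0 * th ω) *
          ((⌊(2 : ℝ) ^ X * (2 ^ ex a 0 * om ω 0)⌋ : ℝ) / 2 ^ X) +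
         (S ω' 1 / 2 ^ ex a 1 * th ω' - S ω 1 / 2 ^ ex a 1 * th ω) *
          ((⌊(2 : ℝ) ^ X * (2 ^ ex a 1 * om ω 1)⌋ : ℝ) / 2 ^ X))) := ⟨_, rfl⟩
      have e3 : V = -((2 : ℝ) ^ X * nu ω' - ⌊(2 : ℝ) ^ X * nu ω'⌋) +
          ((2 : ℝ) ^ X * nu ω - ⌊(2 : ℝ) ^ X * nu ω⌋) +
          (th ω' - th ω) * ((2 : ℝ) ^ X * be ω - ⌊(2 : ℝ) ^ X * be ω⌋) -
          (2 ^ X * ((S ω' 0 - S ω 0) * y ω 0) - (S ω' 0 / 2 ^ ex a 0 - S ω 0 / 2 ^ ex a 0) *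
            ⌊(2 : ℝ) ^ X * (2 ^ ex a 0 * y ω 0)⌋) -
          (2 ^ X * ((S ω' 1 - S ω 1) * y ω 1) - (S ω' 1 / 2 ^ ex a 1 - S ω 1 / 2 ^ ex a 1) *
            ⌊(2 : ℝ) ^ X * (2 ^ ex a 1 * y ω 1)⌋) -
          (2 ^ X * ((S ω' 0 * th ω' - S ω 0 * th ω) * om ω 0) -
            (S ω' 0 * th ω' / 2 ^ ex a 0 - S ω 0 * th ω / 2 ^ ex a 0) *
            ⌊(2 : ℝ) ^ X * (2 ^ ex a 0 * om ω 0)⌋) -
          (2 ^ X * ((S ω' 1 * th ω' - S ω 1 * th ω) * om ω 1) -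
            (S ω' 1 * th ω' / 2 ^ ex a 1 - S ω 1 * th ω / 2 ^ ex a 1) *
            ⌊(2 : ℝ) ^ X * (2 ^ ex a 1 * om ω 1)⌋) := by
        rw [hV]
        have q1 : ∀ A B : ℝ, (2 : ℝ) ^ X * (A * (B / 2 ^ X)) = A * B := fun A B => by
          have := h2X.ne'
          field_simp
        rw [mul_sub, mul_sub, mul_add, mul_add, q1, q1, q1, q1, q1]
        rw [show (2 : ℝ) ^ X * nu ω' = (2 : ℝ) ^ X * nu ω' from rfl]
        have q2 : (2 : ℝ) ^ X * nu ω' - 2 ^ X * nu ω = (th ω' - th ω) * (2 ^ X * be ω) -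
          2 ^ X * ((S ω' 0 - S ω 0) * y ω 0) - 2 ^ X * ((S ω' 1 - S ω 1) * y ω 1) -
          2 ^ X * ((S ω' 0 * th ω' - S ω 0 * th ω) * om ω 0) -
          2 ^ X * ((S ω' 1 * th ω' - S ω 1 * th ω) * om ω 1) := by
          rw [c1, c2]
          ring
        linear_combination q2
      rw [← hV, e3]
      have fin : (11 : ℝ) ≤ 2 ^ (3 * a + 4) := by
        have h5 : (2 : ℝ) ^ (3 * a + 4) = 2 ^ (3 * a) * 16 := by rw [pow_add]; norm_num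
        have h6 : (1 : ℝ) ≤ 2 ^ (3 * a) := one_le_pow₀ (by norm_num)
        rw [h5]
        linarith
      refine le_trans ?_ fin
      rw [abs_le] at n1 n2 k3 k10 k11 k20 k21 ⊢
      constructor <;> linarith [n1.1, n1.2, n2.1, n2.2, k3.1, k3.2, k10.1, k10.2, k11.1, k11.2,
        k20.1, k20.2, k21.1, k21.2]
    exact hgoal

end rep

end Ocs

end Pool.OCSR
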