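import Pool.Agent.H8.OCS.Two

/-!
# Theorem OCS for real variables: one value of the context
-/

set_option autoImplicit false

namespace Pool.OCSR

open Finset Real
open Pool.Agent.H49.Ent Pool.Agent.H32.Dense Pool.STK Pool.KA Pool.K2S

variable {Ω Λ Θ : Type} [Fintype Ω]

namespace Ocs

open Uni (dg)

theorem ocs_one {x₀ lm κ ϖ ι ε c ca : ℝ} {X₀ a : ℕ}
    (hOC : ∀ (d : Pool.OCS.Dat) (lam : ℕ), d.OK (3 * a + 4) → X₀ ≤ d.X → (lam : ℝ) ≤ lm * d.X →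
      d.H1 ι → d.toR.H2 ι → d.H3 lam ι → d.H4 ca → d.toR.H5 c κ ϖ ∅ → d.H6 x₀ ε → d.H7 x₀ ε →
      False)
    {K : ℝ} (hK : K ≤ 2 ^ a) {q : Ω → ℝ} {L : Ω → Λ} {T : Ω → Θ} {y om : Ω → Fin 2 → ℝ}
    {be m0 th : Ω → ℝ} {S : Ω → Fin 2 → ℝ} {E nu : Ω → ℝ}
    (hd : RData K q (fun _ => ()) L T y om be m0 th S E nu) {X lam n : ℕ} (hX : X₀ ≤ X)
    (hn : 0 < n) (hlam : ((lam + n : ℕ) : ℝ) ≤ lm * X)
    (hC1 : Cst a ≤ ι / 2 * X) (hC2 : Cst a ≤ ι / 4 * n * Real.log 2) (hC3 : 2 * n ≤ ι / 4 * X)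
    (h1 : Pool.KVA.MI q T L (fun _ => ()) ≤ ι * X)
    (h1' : (1 - ι) * X * Real.log 2 ≤ CH q (dg X th) L)
    (h2 : CH q (dg X nu) T - CH q (dg X nu) (fun ω => ((dgv X y ω, (dgv X om ω, dg X be ω)),
      T ω)) ≤ ι / 2 * X)
    (h3 : (2 - ι / 2) * X * Real.log 2 ≤ ∑ s ∈ range X, CH q (dgv (s + 1) (ptv y om th))
      (fun ω => (dgv s (ptv y om th) ω, (dgv (s - lam) om ω, T ω))))
    (h4 : ca * X * Real.log 2 + Cst a ≤
      CH q (dg X (fun ω => om ω 0)) (fun ω => (T ω, pdv X y om be th S E ω)))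
    (h6 : Pool.KAF.Pr (dbl q L) {w | ‖S w.1 - S w.2‖ < 2 ^ (2 * a) * (2 : ℝ) ^ (-(x₀ * X))} ≤ ε)
    (h7 : Pool.KAF.Pr (dbl q L) {w | |E w.1 - E w.2| < 2 ^ (2 * a) * (2 : ℝ) ^ (-(x₀ * X))} ≤ ε) :
    ∃ j : ℕ, (j + 1) * ⌊κ * X⌋₊ ≤ X ∧ ∃ A : Ω → Prop, ϖ ≤ Pe q A ∧
      (1 - c) * ⌊κ * X⌋₊ * Real.log 2 <
        CH (Pool.Agent.H49.Ent.cond q A True) (dg ((j + 1) * ⌊κ * X⌋₊) nu)
          (fun ω => (dg (j * ⌊κ * X⌋₊) nu ω, T ω)) := by
  classical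
  by_contra hcon
  push Not at hcon
  have hq := hd.law
  have h0 := hq.nonneg
  have hl2 : 0 < Real.log 2 := Real.log_pos (by norm_num)
  obtain ⟨fy, fom, fbe, fm, fth, fS, fE, h⟩ := exists_rep hK hd
  refine hOC (mkS a q L T fy fom fbe fth fS fE nu X) (lam + n) (ok_mkS h) hX hlam
    ⟨h1, ?_⟩ ?_ ?_ ?_ ?_ ?_ ?_
  · -- H1
    refine h1'.trans (le_of_eq ?_)
    refine Uni.CH_eq_of h0 (fun ω hω => ?_) fun _ _ => rfl
    change ⌊(2 : ℝ) ^ X * th ω⌋ =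
      ⌊(2 : ℝ) ^ X * (mkS a q L T fy fom fbe fth fS fE nu X).th (T ω)⌋
    rw [val_th h hω]
  · -- H2
    have key := h2_mkS (X := X) h h2
    change Pool.KVA.MI q (dg X nu) (fun ω => (mkS a q L T fy fom fbe fth fS fE nu X).V (L ω)) T ≤
      ι * X
    linarith
  · -- H3
    have key := h3_mkS (X := X) (l := lam) h hn
    change (2 - ι) * X * Real.log 2 ≤
      ∑ s ∈ range X, CH q ((mkS a q L T fy fom fbe fth fS fE nu X).ptd (s + 1))
      (fun ω => ((mkS a q L T fy fom fbe fth fS fE nu X).ptd s ω,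
        (mkS a q L T fy fom fbe fth fS fE nu X).omd (s - (lam + n)) (L ω), T ω))
    have k1 : ((X / n : ℕ) : ℝ) * Cst a ≤ ι / 4 * X * Real.log 2 := by
      have e1 : ((X / n : ℕ) : ℝ) * n ≤ X := by exact_mod_cast Nat.div_mul_le_self X n
      have e2 : 0 ≤ ι / 4 * Real.log 2 := by
        have hnp : (0 : ℝ) < n := by exact_mod_cast hn
        have e3 : 0 ≤ ι / 4 * n * Real.log 2 := (Cst_nonneg a).trans hC2
        have e4 : ι / 4 * n * Real.log 2 = n * (ι / 4 * Real.log 2) := by ring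
        rw [e4] at e3
        exact nonneg_of_mul_nonneg_right e3 hnp
      calc ((X / n : ℕ) : ℝ) * Cst a ≤ (X / n : ℕ) * (ι / 4 * n * Real.log 2) :=
            mul_le_mul_of_nonneg_left hC2 (Nat.cast_nonneg _)
        _ = ((X / n : ℕ) * n) * (ι / 4 * Real.log 2) := by ring
        _ ≤ X * (ι / 4 * Real.log 2) := mul_le_mul_of_nonneg_right e1 e2
        _ = ι / 4 * X * Real.log 2 := by ring
    have k2 : (n : ℝ) * (2 * Real.log 2) ≤ ι / 4 * X * Real.log 2 := by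
      have := mul_le_mul_of_nonneg_right hC3 hl2.le
      linarith
    linarith
  · -- H4
    have key := h4_mkS (X := X) h
    change ca * X * Real.log 2 ≤
      CH q (fun ω => (mkS a q L T fy fom fbe fth fS fE nu X).omd X (L ω) 0)
        (fun ω => (T ω, (mkS a q L T fy fom fbe fth fS fE nu X).pd X (T ω) (L ω)))
    linarith
  · -- H5
    intro j _ hj A hA
    have k1 := hcon j hj (fun ω => ω ∈ A) hA
    refine le_trans (le_of_eq ?_) k1
    have hj' : j * ⌊κ * X⌋₊ ≤ X := le_trans (Nat.mul_le_mul_right _ (Nat.le_succ j)) hj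
    have r1 : (mkS a q L T fy fom fbe fth fS fE nu X).toR.row ((j + 1) * ⌊κ * X⌋₊) =
        dg ((j + 1) * ⌊κ * X⌋₊) nu := by
      funext ω
      exact Uni.floor_row hj (nu ω)
    have r2 : (mkS a q L T fy fom fbe fth fS fE nu X).toR.row (j * ⌊κ * X⌋₊) =
        dg (j * ⌊κ * X⌋₊) nu := by
      funext ω
      exact Uni.floor_row hj' (nu ω)
    change CH (Pool.Agent.H49.Ent.cond q (fun ω => ω ∈ A) True)
      ((mkS a q L T fy fom fbe fth fS fE nu X).toR.row ((j + 1) * ⌊κ * X⌋₊))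
      (fun ω => ((mkS a q L T fy fom fbe fth fS fE nu X).toR.row (j * ⌊κ * X⌋₊) ω, T ω)) = _
    rw [r1, r2]
  · -- H6
    refine le_trans ?_ h6
    refine Uni.Pr_le_of (fun w => glue_nonneg h0 h0 w) fun w hw hE => ?_
    obtain ⟨c1, c2, -⟩ := (glue_pos_iff h0 h0 w).1 hw
    have hE' : ‖(mkS a q L T fy fom fbe fth fS fE nu X).S (T w.1) -
      (mkS a q L T fy fom fbe fth fS fE nu X).S (T w.2)‖ < (2 : ℝ) ^ (-(x₀ * X)) := hE
    have hpos : (0 : ℝ) < (2 : ℝ) ^ (-(x₀ * X)) := Real.rpow_pos_of_pos (by norm_num) _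
    rw [pi_norm_lt_iff hpos] at hE'
    change ‖S w.1 - S w.2‖ < 2 ^ (2 * a) * (2 : ℝ) ^ (-(x₀ * X))
    rw [pi_norm_lt_iff (by positivity)]
    intro j
    have hj := hE' j
    rw [Pi.sub_apply, val_S h c1, val_S h c2, ← sub_div, Real.norm_eq_abs, abs_div,
      abs_of_pos (by positivity : (0 : ℝ) < 2 ^ ex a j), div_lt_iff₀ (by positivity)] at hj
    rw [Pi.sub_apply, Real.norm_eq_abs]
    refine hj.trans_le ?_
    rw [mul_comm]
    exact mul_le_mul_of_nonneg_right (pow_le_pow_right₀ (by norm_num) (ex_le a j).2) hpos.le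
  · -- H7
    refine le_trans ?_ h7
    refine Uni.Pr_le_of (fun w => glue_nonneg h0 h0 w) fun w hw hE => ?_
    obtain ⟨c1, c2, -⟩ := (glue_pos_iff h0 h0 w).1 hw
    have hE' : |(mkS a q L T fy fom fbe fth fS fE nu X).E (T w.1) -
      (mkS a q L T fy fom fbe fth fS fE nu X).E (T w.2)| < (2 : ℝ) ^ (-(x₀ * X)) := hE
    have hpos : (0 : ℝ) < (2 : ℝ) ^ (-(x₀ * X)) := Real.rpow_pos_of_pos (by norm_num) _
    rw [val_E h c1, val_E h c2, ← sub_div, abs_div,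
      abs_of_pos (by positivity : (0 : ℝ) < 2 ^ a), div_lt_iff₀ (by positivity)] at hE'
    change |E w.1 - E w.2| < 2 ^ (2 * a) * (2 : ℝ) ^ (-(x₀ * X))
    refine hE'.trans_le ?_
    rw [mul_comm]
    exact mul_le_mul_of_nonneg_right (pow_le_pow_right₀ (by norm_num) (by omega)) hpos.le

end Ocs

end Pool.OCSR
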