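import Pool.Agent.H8.OCS.One

/-!
# Theorem OCS for real variables: the hypotheses for one value of the context
-/

set_option autoImplicit false

namespace Pool.OCSR

open Finset Real
open Pool.Agent.H49.Ent Pool.Agent.H32.Dense Pool.STK Pool.KA Pool.K2S

variable {Ω Λ Θ : Type} [Fintype Ω]

namespace Ocs

open Uni (dg)

/-- The constant of the roundings. -/
noncomputable def Cst (a : ℕ) : ℝ := 10 * Real.log (2 * 2 ^ (2 * a) + 17)

theorem log_le_Cst {a : ℕ} {c : ℝ} (h0 : 0 < c) (hc : c ≤ 2 * 2 ^ (2 * a) + 17) :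
    10 * Real.log c ≤ Cst a :=
  mul_le_mul_of_nonneg_left (Real.log_le_log h0 hc) (by norm_num)

theorem Cst_nonneg (a : ℕ) : 0 ≤ Cst a := by
  have h1 : (0 : ℝ) ≤ Real.log (2 * 2 ^ (2 * a) + 17) := by
    refine Real.log_nonneg ?_
    have : (0 : ℝ) < 2 ^ (2 * a) := by positivity
    linarith
  unfold Cst
  linarith

/-- Lipschitz change of a real number and a scaling. -/
theorem chg {u v w w' x x' c d e : ℝ} (h1 : |w - u * x| ≤ c) (h2 : |w' - u * x'| ≤ c)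
    (h3 : |v * x - v * x'| ≤ d) (hv : 0 < v) (he : 0 ≤ u) (hu : u ≤ e * v) :
    |w - w'| ≤ e * d + 2 * c := by
  have h4 : |u * x - u * x'| ≤ e * d := by
    have e1 : u * x - u * x' = u / v * (v * x - v * x') := by
      field_simp
    rw [e1, abs_mul, abs_of_nonneg (div_nonneg he hv.le)]
    have h5 : u / v ≤ e := by rwa [div_le_iff₀ hv]
    have h6 : 0 ≤ d := (abs_nonneg _).trans h3
    calc u / v * |v * x - v * x'| ≤ u / v * d :=
          mul_le_mul_of_nonneg_left h3 (div_nonneg he hv.le)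
      _ ≤ e * d := mul_le_mul_of_nonneg_right h5 h6
  rw [abs_le] at h1 h2 h4 ⊢
  constructor <;> linarith [h1.1, h1.2, h2.1, h2.2, h4.1, h4.2]

section rep

variable {a : ℕ} {q : Ω → ℝ} {L : Ω → Λ} {T : Ω → Θ} {fy fom : Λ → Fin 2 → ℝ}
  {fbe fm : Λ → ℝ} {fth : Θ → ℝ} {fS : Θ → Fin 2 → ℝ} {fE : Θ → ℝ} {y om : Ω → Fin 2 → ℝ}
  {be m0 th : Ω → ℝ} {S : Ω → Fin 2 → ℝ} {E nu : Ω → ℝ} {X : ℕ}

/-- The velocity of the data. -/
theorem near_om (h : Rep a q L T fy fom fbe fm fth fS fE y om be m0 th S E nu) {ω : Ω}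
    (hω : 0 < q ω) {s : ℕ} (hs : s ≤ X) (j : Fin 2) :
    |(2 : ℝ) ^ s * (mkS a q L T fy fom fbe fth fS fE nu X).omR (L ω) j -
      2 ^ s * 2 ^ ex a j * om ω j| ≤ 1 := by
  have h2X : (0 : ℝ) < 2 ^ X := by positivity
  rw [val_om h hω]
  have n := fl_abs ((2 : ℝ) ^ X * (2 ^ ex a j * om ω j))
  have e : (2 : ℝ) ^ s * ((⌊(2 : ℝ) ^ X * (2 ^ ex a j * om ω j)⌋ : ℝ) / 2 ^ X) -
      2 ^ s * 2 ^ ex a j * om ω j = -(2 ^ s / 2 ^ X) * ((2 : ℝ) ^ X * (2 ^ ex a j * om ω j) -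
        ⌊(2 : ℝ) ^ X * (2 ^ ex a j * om ω j)⌋) := by
    field_simp
    ring
  rw [e, abs_mul, abs_neg, abs_of_pos (by positivity : (0 : ℝ) < 2 ^ s / 2 ^ X)]
  have h1 : (2 : ℝ) ^ s / 2 ^ X ≤ 1 := by
    rw [div_le_one h2X]
    exact pow_le_pow_right₀ (by norm_num) hs
  calc (2 : ℝ) ^ s / 2 ^ X * _ ≤ 1 * 1 :=
        mul_le_mul h1 n (abs_nonneg _) zero_le_one
    _ = 1 := one_mul 1

/-- The position of the data at the time of a sample. -/
theorem near_pt (h : Rep a q L T fy fom fbe fm fth fS fE y om be m0 th S E nu) {ω : Ω}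
    (hω : 0 < q ω) {s : ℕ} (hs : s ≤ X) (j : Fin 2) :
    |(2 : ℝ) ^ s * (mkS a q L T fy fom fbe fth fS fE nu X).pt (T ω) (L ω) j -
      2 ^ s * 2 ^ ex a j * ptv y om th ω j| ≤ 2 := by
  have h2X : (0 : ℝ) < 2 ^ X := by positivity
  have h1 : (2 : ℝ) ^ s / 2 ^ X ≤ 1 := by
    rw [div_le_one h2X]
    exact pow_le_pow_right₀ (by norm_num) hs
  have k1 := near_om (X := X) h hω hs j
  have n := fl_abs ((2 : ℝ) ^ X * (2 ^ ex a j * y ω j))
  have k2 : |(2 : ℝ) ^ s * (mkS a q L T fy fom fbe fth fS fE nu X).yR (L ω) j -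
      2 ^ s * 2 ^ ex a j * y ω j| ≤ 1 := by
    rw [val_y h hω]
    have e : (2 : ℝ) ^ s * ((⌊(2 : ℝ) ^ X * (2 ^ ex a j * y ω j)⌋ : ℝ) / 2 ^ X) -
        2 ^ s * 2 ^ ex a j * y ω j = -(2 ^ s / 2 ^ X) * ((2 : ℝ) ^ X * (2 ^ ex a j * y ω j) -
          ⌊(2 : ℝ) ^ X * (2 ^ ex a j * y ω j)⌋) := by
      field_simp
      ring
    rw [e, abs_mul, abs_neg, abs_of_pos (by positivity : (0 : ℝ) < 2 ^ s / 2 ^ X)]
    calc (2 : ℝ) ^ s / 2 ^ X * _ ≤ 1 * 1 :=
          mul_le_mul h1 n (abs_nonneg _) zero_le_one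
      _ = 1 := one_mul 1
  obtain ⟨t1, t2⟩ := h.hth ω hω
  have e : (2 : ℝ) ^ s * (mkS a q L T fy fom fbe fth fS fE nu X).pt (T ω) (L ω) j -
      2 ^ s * 2 ^ ex a j * ptv y om th ω j =
      ((2 : ℝ) ^ s * (mkS a q L T fy fom fbe fth fS fE nu X).yR (L ω) j -
        2 ^ s * 2 ^ ex a j * y ω j) +
      th ω * ((2 : ℝ) ^ s * (mkS a q L T fy fom fbe fth fS fE nu X).omR (L ω) j -
        2 ^ s * 2 ^ ex a j * om ω j) := by
    change (2 : ℝ) ^ s * ((mkS a q L T fy fom fbe fth fS fE nu X).yR (L ω) j +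
      (mkS a q L T fy fom fbe fth fS fE nu X).th (T ω) *
        (mkS a q L T fy fom fbe fth fS fE nu X).omR (L ω) j) -
      2 ^ s * 2 ^ ex a j * (y ω j + th ω * om ω j) = _
    rw [val_th h hω]
    ring
  rw [e]
  refine (abs_add_le _ _).trans ?_
  rw [abs_mul, abs_of_nonneg t1]
  have : th ω * |(2 : ℝ) ^ s * (mkS a q L T fy fom fbe fth fS fE nu X).omR (L ω) j -
      2 ^ s * 2 ^ ex a j * om ω j| ≤ 1 * 1 := mul_le_mul t2.le k1 (abs_nonneg _) zero_le_one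
  linarith

/-- The normal velocity of the data. -/
theorem near_ct (h : Rep a q L T fy fom fbe fm fth fS fE y om be m0 th S E nu) {ω : Ω}
    (hω : 0 < q ω) :
    |(2 : ℝ) ^ X * (mkS a q L T fy fom fbe fth fS fE nu X).ct (T ω) (L ω) -
      2 ^ X * ctv be S om ω| ≤ 3 := by
  have h2X : (0 : ℝ) < 2 ^ X := by positivity
  have n := fl_abs ((2 : ℝ) ^ X * be ω)
  have k : ∀ j, |(2 : ℝ) ^ X * (S ω j / 2 ^ ex a j *
      (mkS a q L T fy fom fbe fth fS fE nu X).omR (L ω) j) - 2 ^ X * (S ω j * om ω j)| ≤ 1 := by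
    intro j
    have k1 := near_om (X := X) h hω le_rfl j
    have e : (2 : ℝ) ^ X * (S ω j / 2 ^ ex a j *
        (mkS a q L T fy fom fbe fth fS fE nu X).omR (L ω) j) - 2 ^ X * (S ω j * om ω j) =
        S ω j / 2 ^ ex a j * ((2 : ℝ) ^ X * (mkS a q L T fy fom fbe fth fS fE nu X).omR (L ω) j -
          2 ^ X * 2 ^ ex a j * om ω j) := by
      field_simp
    rw [e, abs_mul]
    calc |S ω j / 2 ^ ex a j| * _ ≤ 1 * 1 :=
          mul_le_mul (div_one' (ex_le a j).1 (h.hS ω hω j)) k1 (abs_nonneg _) zero_le_one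
      _ = 1 := one_mul 1
  have k0 := k 0
  have k1 := k 1
  have e : (2 : ℝ) ^ X * (mkS a q L T fy fom fbe fth fS fE nu X).ct (T ω) (L ω) -
      2 ^ X * ctv be S om ω = -((2 : ℝ) ^ X * be ω - ⌊(2 : ℝ) ^ X * be ω⌋) -
      ((2 : ℝ) ^ X * (S ω 0 / 2 ^ ex a 0 *
        (mkS a q L T fy fom fbe fth fS fE nu X).omR (L ω) 0) - 2 ^ X * (S ω 0 * om ω 0)) -
      ((2 : ℝ) ^ X * (S ω 1 / 2 ^ ex a 1 *
        (mkS a q L T fy fom fbe fth fS fE nu X).omR (L ω) 1) - 2 ^ X * (S ω 1 * om ω 1)) := by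
    change (2 : ℝ) ^ X * ((mkS a q L T fy fom fbe fth fS fE nu X).beR (L ω) -
      ∑ j, (mkS a q L T fy fom fbe fth fS fE nu X).S (T ω) j *
        (mkS a q L T fy fom fbe fth fS fE nu X).omR (L ω) j) -
      2 ^ X * (be ω - ∑ j, S ω j * om ω j) = _
    rw [val_be h hω, Fin.sum_univ_two, Fin.sum_univ_two, val_S h hω, val_S h hω]
    have q1 : (2 : ℝ) ^ X * ((⌊(2 : ℝ) ^ X * be ω⌋ : ℝ) / 2 ^ X) = ⌊(2 : ℝ) ^ X * be ω⌋ := by
      have := h2X.ne'
      field_simp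
    linear_combination q1
  rw [e]
  rw [abs_le] at n k0 k1 ⊢
  constructor <;> linarith [n.1, n.2, k0.1, k0.2, k1.1, k1.2]

/-- The transversal velocity of the data. -/
theorem near_ka (h : Rep a q L T fy fom fbe fm fth fS fE y om be m0 th S E nu) {ω : Ω}
    (hω : 0 < q ω) :
    |(2 : ℝ) ^ X * (mkS a q L T fy fom fbe fth fS fE nu X).ka (T ω) (L ω) -
      2 ^ X * 2 ^ a * kav E om ω| ≤ 2 := by
  have h2X : (0 : ℝ) < 2 ^ X := by positivity
  have k0 := near_om (X := X) h hω le_rfl 0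
  have k1 := near_om (X := X) h hω le_rfl 1
  have x0 : (2 : ℝ) ^ ex a 0 = 2 ^ a * 2 ^ a := by
    change (2 : ℝ) ^ (2 * a) = _
    rw [two_mul, pow_add]
  have x1 : (2 : ℝ) ^ ex a 1 = 2 ^ a := rfl
  have e : (2 : ℝ) ^ X * (mkS a q L T fy fom fbe fth fS fE nu X).ka (T ω) (L ω) -
      2 ^ X * 2 ^ a * kav E om ω =
      ((2 : ℝ) ^ X * (mkS a q L T fy fom fbe fth fS fE nu X).omR (L ω) 1 -
        2 ^ X * 2 ^ ex a 1 * om ω 1) -
      E ω / 2 ^ a * ((2 : ℝ) ^ X * (mkS a q L T fy fom fbe fth fS fE nu X).omR (L ω) 0 -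
        2 ^ X * 2 ^ ex a 0 * om ω 0) := by
    change (2 : ℝ) ^ X * ((mkS a q L T fy fom fbe fth fS fE nu X).omR (L ω) 1 -
      (mkS a q L T fy fom fbe fth fS fE nu X).E (T ω) *
        (mkS a q L T fy fom fbe fth fS fE nu X).omR (L ω) 0) -
      2 ^ X * 2 ^ a * (om ω 1 - E ω * om ω 0) = _
    rw [val_E h hω, x0, x1]
    have : (2 : ℝ) ^ a ≠ 0 := by positivity
    field_simp
    ring
  rw [e]
  refine (abs_sub _ _).trans ?_
  rw [abs_mul]
  have : |E ω / 2 ^ a| * |(2 : ℝ) ^ X * (mkS a q L T fy fom fbe fth fS fE nu X).omR (L ω) 0 -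
      2 ^ X * 2 ^ ex a 0 * om ω 0| ≤ 1 * 1 :=
    mul_le_mul (div_one' le_rfl (h.hE ω hω)) k0 (abs_nonneg _) zero_le_one
  linarith

/-! ### digits given digits -/

/-- `2 ^ s 2 ^ e` against `2 ^ s`. -/
theorem pow_ex_le (a s : ℕ) (j : Fin 2) : (2 : ℝ) ^ s * 2 ^ ex a j ≤ 2 ^ (2 * a) * 2 ^ s := by
  rw [mul_comm]
  exact mul_le_mul_of_nonneg_right (pow_le_pow_right₀ (by norm_num) (ex_le a j).2) (by positivity)

theorem one_le_ex (a s : ℕ) (j : Fin 2) : (2 : ℝ) ^ s ≤ 1 * (2 ^ s * 2 ^ ex a j) := by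
  rw [one_mul]
  have h1 : (1 : ℝ) ≤ 2 ^ ex a j := one_le_pow₀ (by norm_num)
  have h2 : (0 : ℝ) < 2 ^ s := by positivity
  nlinarith

/-- The digits of the position from those of the data. -/
theorem CH_pt_back (h : Rep a q L T fy fom fbe fm fth fS fE y om be m0 th S E nu) {s : ℕ}
    (hs : s ≤ X) : CH q (dgv s (ptv y om th)) ((mkS a q L T fy fom fbe fth fS fE nu X).ptd s) ≤
      2 * Real.log (2 * 2 ^ (2 * a) + 17) := by
  have h2s : (0 : ℝ) < 2 ^ s := by positivity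
  have key := CH_vec (m := 2) h.law (dgv s (ptv y om th))
    ((mkS a q L T fy fom fbe fth fS fE nu X).ptd s) (c := 6) (fun ω ω' c d e j => by
      have e1 : ⌊(2 : ℝ) ^ s * (mkS a q L T fy fom fbe fth fS fE nu X).pt (T ω) (L ω) j⌋ =
        ⌊(2 : ℝ) ^ s * (mkS a q L T fy fom fbe fth fS fE nu X).pt (T ω') (L ω') j⌋ := congrFun e j
      have e2 := fl_eq e1
      have n1 := near_pt (X := X) h c hs j
      have n2 := near_pt (X := X) h d hs j
      have e3 : |(2 : ℝ) ^ s * ptv y om th ω j - 2 ^ s * ptv y om th ω' j| ≤ 5 := by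
        have g1 : |2 ^ s * 2 ^ ex a j * ptv y om th ω j -
            2 ^ s * 2 ^ ex a j * ptv y om th ω' j| ≤ 5 := by
          rw [abs_le] at e2 n1 n2 ⊢
          constructor <;> linarith [e2.1, e2.2, n1.1, n1.2, n2.1, n2.2]
        have g2 := chg (u := 2 ^ s) (v := 2 ^ s * 2 ^ ex a j)
          (w := 2 ^ s * ptv y om th ω j) (w' := 2 ^ s * ptv y om th ω' j)
          (x := ptv y om th ω j) (x' := ptv y om th ω' j) (c := 0) (e := 1)
          (by rw [sub_self, abs_zero]) (by rw [sub_self, abs_zero]) g1 (by positivity)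
          (by positivity) (one_le_ex a s j)
        linarith
      exact (fl_sub e3).trans (by norm_num))
  refine key.trans ?_
  have h3 : (0 : ℝ) < 2 ^ (2 * a) := by positivity
  exact mul_le_mul_of_nonneg_left (Real.log_le_log (by norm_num) (by linarith)) (by norm_num)

/-- The digits of the position of the data. -/
theorem CH_pt_forth (h : Rep a q L T fy fom fbe fm fth fS fE y om be m0 th S E nu) {s : ℕ}
    (hs : s ≤ X) : CH q ((mkS a q L T fy fom fbe fth fS fE nu X).ptd s) (dgv s (ptv y om th)) ≤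
      2 * Real.log (2 * 2 ^ (2 * a) + 17) := by
  have h2s : (0 : ℝ) < 2 ^ s := by positivity
  have key := CH_vec (m := 2) h.law ((mkS a q L T fy fom fbe fth fS fE nu X).ptd s)
    (dgv s (ptv y om th)) (c := 2 ^ (2 * a) + 5) (fun ω ω' c d e j => by
      have e1 : ⌊(2 : ℝ) ^ s * ptv y om th ω j⌋ = ⌊(2 : ℝ) ^ s * ptv y om th ω' j⌋ := congrFun e j
      have e2 := fl_eq e1
      have n1 := near_pt (X := X) h c hs j
      have n2 := near_pt (X := X) h d hs j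
      have g2 := chg (e := 2 ^ (2 * a)) n1 n2 e2 h2s (by positivity) (pow_ex_le a s j)
      have g3 : |((⌊(2 : ℝ) ^ s * (mkS a q L T fy fom fbe fth fS fE nu X).pt (T ω) (L ω) j⌋ -
        ⌊(2 : ℝ) ^ s * (mkS a q L T fy fom fbe fth fS fE nu X).pt (T ω') (L ω') j⌋ : ℤ) : ℝ)| ≤
          (2 ^ (2 * a) * 1 + 2 * 2) + 1 := fl_sub g2
      exact g3.trans (by linarith))
  refine key.trans ?_
  have h3 : (0 : ℝ) < 2 ^ (2 * a) := by positivity
  exact mul_le_mul_of_nonneg_left (Real.log_le_log (by linarith) (by linarith)) (by norm_num)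

/-- The digits of the velocity of the data. -/
theorem CH_om_forth (h : Rep a q L T fy fom fbe fm fth fS fE y om be m0 th S E nu) {s : ℕ}
    (hs : s ≤ X) : CH q (fun ω => (mkS a q L T fy fom fbe fth fS fE nu X).omd s (L ω))
      (dgv s om) ≤ 2 * Real.log (2 * 2 ^ (2 * a) + 17) := by
  have h2s : (0 : ℝ) < 2 ^ s := by positivity
  have key := CH_vec (m := 2) h.law
    (fun ω => (mkS a q L T fy fom fbe fth fS fE nu X).omd s (L ω))
    (dgv s om) (c := 2 ^ (2 * a) + 3) (fun ω ω' c d e j => by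
      have e1 : ⌊(2 : ℝ) ^ s * om ω j⌋ = ⌊(2 : ℝ) ^ s * om ω' j⌋ := congrFun e j
      have e2 := fl_eq e1
      have n1 := near_om (X := X) h c hs j
      have n2 := near_om (X := X) h d hs j
      have g2 := chg (e := 2 ^ (2 * a)) n1 n2 e2 h2s (by positivity) (pow_ex_le a s j)
      have g3 : |((⌊(2 : ℝ) ^ s * (mkS a q L T fy fom fbe fth fS fE nu X).omR (L ω) j⌋ -
        ⌊(2 : ℝ) ^ s * (mkS a q L T fy fom fbe fth fS fE nu X).omR (L ω') j⌋ : ℤ) : ℝ)| ≤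
          (2 ^ (2 * a) * 1 + 2 * 1) + 1 := fl_sub g2
      exact g3.trans (by linarith))
  refine key.trans ?_
  have h3 : (0 : ℝ) < 2 ^ (2 * a) := by positivity
  exact mul_le_mul_of_nonneg_left (Real.log_le_log (by linarith) (by linarith)) (by norm_num)

/-- The digits of the scaled variables. -/
theorem CH_scale (hq : IsLaw q) (x : Ω → Fin 2 → ℝ) (s : ℕ) :
    CH q (fun ω (j : Fin 2) => ⌊(2 : ℝ) ^ s * (2 ^ ex a j * x ω j)⌋) (dgv s x) ≤
      2 * Real.log (2 * 2 ^ (2 * a) + 17) := by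
  have h2s : (0 : ℝ) < 2 ^ s := by positivity
  have key := CH_vec (m := 2) hq
    (fun ω (j : Fin 2) => ⌊(2 : ℝ) ^ s * (2 ^ ex a j * x ω j)⌋)
    (dgv s x) (c := 2 ^ (2 * a) + 1) (fun ω ω' c d e j => by
      have e1 : ⌊(2 : ℝ) ^ s * x ω j⌋ = ⌊(2 : ℝ) ^ s * x ω' j⌋ := congrFun e j
      have e2 := fl_eq e1
      have g2 := chg (u := 2 ^ s * 2 ^ ex a j) (w := 2 ^ s * (2 ^ ex a j * x ω j))
        (w' := 2 ^ s * (2 ^ ex a j * x ω' j)) (x := x ω j) (x' := x ω' j) (c := 0)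
        (e := 2 ^ (2 * a))
        (by rw [mul_assoc, sub_self, abs_zero]) (by rw [mul_assoc, sub_self, abs_zero]) e2 h2s
        (by positivity) (pow_ex_le a s j)
      have g3 := fl_sub g2
      exact g3.trans (by linarith))
  refine key.trans ?_
  have h3 : (0 : ℝ) < 2 ^ (2 * a) := by positivity
  exact mul_le_mul_of_nonneg_left (Real.log_le_log (by linarith) (by linarith)) (by norm_num)

/-- Nested digits. -/
theorem ptd_det (s : ℕ) : Det q ((mkS a q L T fy fom fbe fth fS fE nu X).ptd (s + 1))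
    ((mkS a q L T fy fom fbe fth fS fE nu X).ptd s) := by
  intro ω ω' _ _ e
  funext j
  exact fl_half s (congrFun e j)

omit [Fintype Ω] in
theorem dgv_det (x : Ω → Fin 2 → ℝ) (s : ℕ) : Det q (dgv (s + 1) x) (dgv s x) := by
  intro ω ω' _ _ e
  funext j
  exact fl_half s (congrFun e j)

omit [Fintype Ω] in
theorem dgv_det' (x : Ω → Fin 2 → ℝ) (r s : ℕ) (hrs : r ≤ s) : Det q (dgv s x) (dgv r x) := by
  intro ω ω' _ _ e
  funext j
  exact fl_coarse hrs (congrFun e j)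

theorem omd_det (r s : ℕ) (hrs : r ≤ s) :
    Det q (fun ω => (mkS a q L T fy fom fbe fth fS fE nu X).omd s (L ω))
      (fun ω => (mkS a q L T fy fom fbe fth fS fE nu X).omd r (L ω)) := by
  intro ω ω' _ _ e
  funext j
  exact fl_coarse hrs (congrFun e j)

/-! ### the hypotheses -/

/-- (H2) -/
theorem h2_mkS (h : Rep a q L T fy fom fbe fm fth fS fE y om be m0 th S E nu) {δ : ℝ}
    (h2 : CH q (dg X nu) T - CH q (dg X nu) (fun ω => ((dgv X y ω, (dgv X om ω, dg X be ω)),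
      T ω)) ≤ δ) :
    Pool.KVA.MI q (dg X nu) (fun ω => (mkS a q L T fy fom fbe fth fS fE nu X).V (L ω)) T ≤
      δ + Cst a := by
  have h0 := h.law.nonneg
  obtain ⟨V, hV⟩ : ∃ V : Ω → (Fin 2 → ℤ) × (Fin 2 → ℤ) × ℤ, V = fun ω =>
    (mkS a q L T fy fom fbe fth fS fE nu X).V (L ω) := ⟨_, rfl⟩
  obtain ⟨R, hR⟩ : ∃ R : Ω → (Fin 2 → ℤ) × (Fin 2 → ℤ) × ℤ, R = fun ω =>
    (dgv X y ω, (dgv X om ω, dg X be ω)) := ⟨_, rfl⟩
  have k1 := CH_chain h0 (dg X nu) V T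
  have k2 := CH_approx h0 (dg X nu) (dg X nu) (fun ω => (R ω, T ω)) (fun ω => (V ω, T ω))
  have k3 : CH q (dg X nu) (dg X nu) = 0 := CH_eq_zero h0 fun _ _ _ _ e => e
  have k4 := CH_pair_cond h0 R V T
  have k5 : CH q V R ≤ 4 * Real.log (2 * 2 ^ (2 * a) + 17) := by
    have g1 := CH_chain h0 (fun ω (j : Fin 2) => ⌊(2 : ℝ) ^ X * (2 ^ ex a j * y ω j)⌋)
      (fun ω (j : Fin 2) => ⌊(2 : ℝ) ^ X * (2 ^ ex a j * om ω j)⌋) R
    have g2 := CH_scale (a := a) h.law y X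
    have g3 := CH_scale (a := a) h.law om X
    have g4 : CH q (fun ω (j : Fin 2) => ⌊(2 : ℝ) ^ X * (2 ^ ex a j * om ω j)⌋) R ≤
        CH q (fun ω (j : Fin 2) => ⌊(2 : ℝ) ^ X * (2 ^ ex a j * om ω j)⌋) (dgv X om) :=
      CH_mono_cond h0 fun ω ω' _ _ e => by
        rw [hR] at e
        exact (Prod.ext_iff.mp (Prod.ext_iff.mp e).2).1
    have g5 : CH q (fun ω (j : Fin 2) => ⌊(2 : ℝ) ^ X * (2 ^ ex a j * y ω j)⌋)
        (fun ω => ((fun (j : Fin 2) => ⌊(2 : ℝ) ^ X * (2 ^ ex a j * om ω j)⌋), R ω)) ≤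
        CH q (fun ω (j : Fin 2) => ⌊(2 : ℝ) ^ X * (2 ^ ex a j * y ω j)⌋) (dgv X y) :=
      CH_mono_cond h0 fun ω ω' _ _ e => by
        have e1 := (Prod.ext_iff.mp e).2
        rw [hR] at e1
        exact (Prod.ext_iff.mp e1).1
    have g6 : CH q V R ≤ CH q (fun ω => ((fun (j : Fin 2) => ⌊(2 : ℝ) ^ X * (2 ^ ex a j * y ω j)⌋),
        (fun (j : Fin 2) => ⌊(2 : ℝ) ^ X * (2 ^ ex a j * om ω j)⌋))) R := by
      refine CH_mono_left h0 fun ω ω' c d e => ?_
      have e1 := Prod.ext_iff.mp e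
      have e2 := Prod.ext_iff.mp e1.1
      have e3 := e1.2
      rw [hR] at e3
      have e4 : dg X be ω = dg X be ω' := (Prod.ext_iff.mp (Prod.ext_iff.mp e3).2).2
      have v : ∀ o, 0 < q o → V o = ((fun (j : Fin 2) => ⌊(2 : ℝ) ^ X * (2 ^ ex a j * y o j)⌋),
          ((fun (j : Fin 2) => ⌊(2 : ℝ) ^ X * (2 ^ ex a j * om o j)⌋), dg X be o)) := by
        intro o ho
        rw [hV]
        change ((fun (j : Fin 2) => ⌊(2 : ℝ) ^ X * (2 ^ ex a j * fy (L o) j)⌋),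
          ((fun (j : Fin 2) => ⌊(2 : ℝ) ^ X * (2 ^ ex a j * fom (L o) j)⌋),
            ⌊(2 : ℝ) ^ X * fbe (L o)⌋)) = _
        rw [← h.ey o ho, ← h.eom o ho, ← h.ebe o ho]
        rfl
      rw [v ω c, v ω' d]
      exact Prod.ext e2.1 (Prod.ext e2.2 e4)
    linarith
  have k6 := Cst_nonneg a
  have k7 : 4 * Real.log (2 * 2 ^ (2 * a) + 17) ≤ Cst a := by
    unfold Cst at k6 ⊢
    linarith
  rw [hR] at k2 k5
  rw [← hV]
  unfold Pool.KVA.MI
  have k8 : CH q (fun ω => ((V ω), T ω)) (fun ω => ((dgv X y ω, (dgv X om ω, dg X be ω)), T ω)) ≤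
    Cst a := by
    rw [hR] at k4
    linarith
  linarith

/-- (H3) -/
theorem h3_mkS (h : Rep a q L T fy fom fbe fm fth fS fE y om be m0 th S E nu) {l n : ℕ}
    (hn : 0 < n) :
    ∑ s ∈ range X, CH q (dgv (s + 1) (ptv y om th))
      (fun ω => (dgv s (ptv y om th) ω, (dgv (s - l) om ω, T ω))) ≤
    ∑ s ∈ range X, CH q ((mkS a q L T fy fom fbe fth fS fE nu X).ptd (s + 1))
      (fun ω => ((mkS a q L T fy fom fbe fth fS fE nu X).ptd s ω,
        (mkS a q L T fy fom fbe fth fS fE nu X).omd (s - (l + n)) (L ω), T ω)) +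
      (X / n : ℕ) * Cst a + n * (2 * Real.log 2) := by
  have h0 := h.law.nonneg
  have key := lag_round (p := q) h0 (A := fun s => dgv s (ptv y om th))
    (A' := (mkS a q L T fy fom fbe fth fS fE nu X).ptd) (O := fun s => dgv s om)
    (O' := fun s ω => (mkS a q L T fy fom fbe fth fS fE nu X).omd s (L ω))
    (fun s => dgv_det _ s) (fun s => ptd_det s) (fun r s hrs => dgv_det' om r s hrs)
    (fun r s hrs => omd_det r s hrs) T
    (C₁ := 2 * Real.log (2 * 2 ^ (2 * a) + 17)) (C₂ := 4 * Real.log (2 * 2 ^ (2 * a) + 17))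
    (D := 2 * Real.log 2) (l := l) (h := n) (X := X) hn
    (by have := Real.log_pos (by norm_num : (1 : ℝ) < 2); linarith)
    (fun s hs => CH_pt_back h hs)
    (fun s hs => by
      have g1 := CH_chain h0 ((mkS a q L T fy fom fbe fth fS fE nu X).ptd s)
        (fun ω => (mkS a q L T fy fom fbe fth fS fE nu X).omd (s - l) (L ω))
        (fun ω => (dgv s (ptv y om th) ω, dgv (s - l) om ω))
      have g2 := CH_pt_forth (X := X) h hs
      have g3 := CH_om_forth (X := X) h (s := s - l) (by omega)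
      have g4 : CH q (fun ω => (mkS a q L T fy fom fbe fth fS fE nu X).omd (s - l) (L ω))
          (fun ω => (dgv s (ptv y om th) ω, dgv (s - l) om ω)) ≤
          CH q (fun ω => (mkS a q L T fy fom fbe fth fS fE nu X).omd (s - l) (L ω))
            (dgv (s - l) om) :=
        CH_mono_cond h0 fun ω ω' _ _ e => (Prod.ext_iff.mp e).2
      have g5 : CH q ((mkS a q L T fy fom fbe fth fS fE nu X).ptd s)
          (fun ω => ((mkS a q L T fy fom fbe fth fS fE nu X).omd (s - l) (L ω),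
            (dgv s (ptv y om th) ω, dgv (s - l) om ω))) ≤
          CH q ((mkS a q L T fy fom fbe fth fS fE nu X).ptd s) (dgv s (ptv y om th)) :=
        CH_mono_cond h0 fun ω ω' _ _ e => (Prod.ext_iff.mp (Prod.ext_iff.mp e).2).1
      linarith)
    (fun s => CH_step h.law (ptv y om th) s)
  refine key.trans ?_
  have k1 : 2 * Real.log (2 * 2 ^ (2 * a) + 17) + 4 * Real.log (2 * 2 ^ (2 * a) + 17) ≤ Cst a := by
    have := Cst_nonneg a
    unfold Cst at this ⊢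
    linarith
  have k2 : ((X / n : ℕ) : ℝ) * (2 * Real.log (2 * 2 ^ (2 * a) + 17) +
      4 * Real.log (2 * 2 ^ (2 * a) + 17)) ≤ (X / n : ℕ) * Cst a :=
    mul_le_mul_of_nonneg_left k1 (Nat.cast_nonneg _)
  have k3 : ∑ s ∈ range X, CH q ((mkS a q L T fy fom fbe fth fS fE nu X).ptd (s + 1))
      (fun ω => ((mkS a q L T fy fom fbe fth fS fE nu X).ptd s ω,
        ((mkS a q L T fy fom fbe fth fS fE nu X).omd (s - (l + n)) (L ω), T ω))) =
      ∑ s ∈ range X, CH q ((mkS a q L T fy fom fbe fth fS fE nu X).ptd (s + 1))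
      (fun ω => ((mkS a q L T fy fom fbe fth fS fE nu X).ptd s ω,
        (mkS a q L T fy fom fbe fth fS fE nu X).omd (s - (l + n)) (L ω), T ω)) := rfl
  linarith

/-- (H4) -/
theorem h4_mkS (h : Rep a q L T fy fom fbe fm fth fS fE y om be m0 th S E nu) :
    CH q (dg X (fun ω => om ω 0)) (fun ω => (T ω, pdv X y om be th S E ω)) ≤
      CH q (fun ω => (mkS a q L T fy fom fbe fth fS fE nu X).omd X (L ω) 0)
        (fun ω => (T ω, (mkS a q L T fy fom fbe fth fS fE nu X).pd X (T ω) (L ω))) + Cst a := by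
  have h0 := h.law.nonneg
  have h2X : (0 : ℝ) < 2 ^ X := by positivity
  have h3 : (1 : ℝ) ≤ 2 ^ (2 * a) := one_le_pow₀ (by norm_num)
  have h3' : (2 : ℝ) ^ a ≤ 2 ^ (2 * a) := pow_le_pow_right₀ (by norm_num) (by omega)
  have k1 := CH_approx h0 (dg X (fun ω => om ω 0))
    (fun ω => (mkS a q L T fy fom fbe fth fS fE nu X).omd X (L ω) 0)
    (fun ω => (T ω, pdv X y om be th S E ω))
    (fun ω => (T ω, (mkS a q L T fy fom fbe fth fS fE nu X).pd X (T ω) (L ω)))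
  have k2 : CH q (dg X (fun ω => om ω 0))
      (fun ω => (mkS a q L T fy fom fbe fth fS fE nu X).omd X (L ω) 0) ≤
      Real.log (2 * 2 ^ (2 * a) + 17) := by
    refine (CH_int h.law _ _ (c := 4) fun ω ω' c d e => ?_).trans
      (Real.log_le_log (by norm_num) (by linarith))
    have e1 : ⌊(2 : ℝ) ^ X * (mkS a q L T fy fom fbe fth fS fE nu X).omR (L ω) 0⌋ =
      ⌊(2 : ℝ) ^ X * (mkS a q L T fy fom fbe fth fS fE nu X).omR (L ω') 0⌋ := e
    have e2 := fl_eq e1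
    have n1 := near_om (X := X) h c le_rfl 0
    have n2 := near_om (X := X) h d le_rfl 0
    have g1 : |2 ^ X * 2 ^ ex a 0 * om ω 0 - 2 ^ X * 2 ^ ex a 0 * om ω' 0| ≤ 3 := by
      rw [abs_le] at e2 n1 n2 ⊢
      constructor <;> linarith [e2.1, e2.2, n1.1, n1.2, n2.1, n2.2]
    have g2 := chg (u := 2 ^ X) (v := 2 ^ X * 2 ^ ex a 0)
      (w := 2 ^ X * om ω 0) (w' := 2 ^ X * om ω' 0)
      (x := om ω 0) (x' := om ω' 0) (c := 0) (e := 1)
      (by rw [sub_self, abs_zero]) (by rw [sub_self, abs_zero]) g1 (by positivity)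
      (by positivity) (one_le_ex a X 0)
    exact (fl_sub g2).trans (by norm_num)
  obtain ⟨P', hP'⟩ : ∃ P' : Ω → (Fin 2 → ℤ) × ℤ × ℤ, P' = fun ω =>
    (mkS a q L T fy fom fbe fth fS fE nu X).pd X (T ω) (L ω) := ⟨_, rfl⟩
  have k3 : CH q (fun ω => (T ω, P' ω)) (fun ω => (T ω, pdv X y om be th S E ω)) ≤
      CH q P' (fun ω => (T ω, pdv X y om be th S E ω)) :=
    CH_mono_left h0 fun ω ω' _ _ e => by
      have e1 := Prod.ext_iff.mp e
      exact Prod.ext (Prod.ext_iff.mp e1.2).1 e1.1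
  have k4 : CH q P' (fun ω => (T ω, pdv X y om be th S E ω)) ≤
      CH q (fun ω (j : Fin 2) => ⌊(2 : ℝ) ^ X *
        (mkS a q L T fy fom fbe fth fS fE nu X).pt (T ω) (L ω) j⌋) (dgv X (ptv y om th)) +
      (CH q (fun ω => ⌊(2 : ℝ) ^ X * (mkS a q L T fy fom fbe fth fS fE nu X).ct (T ω) (L ω)⌋)
        (dg X (ctv be S om)) +
      CH q (fun ω => ⌊(2 : ℝ) ^ X * (mkS a q L T fy fom fbe fth fS fE nu X).ka (T ω) (L ω)⌋)
        (dg X (kav E om))) := by
    have g1 := CH_subadd h0 (fun ω (j : Fin 2) => ⌊(2 : ℝ) ^ X *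
      (mkS a q L T fy fom fbe fth fS fE nu X).pt (T ω) (L ω) j⌋)
      (fun ω => (⌊(2 : ℝ) ^ X * (mkS a q L T fy fom fbe fth fS fE nu X).ct (T ω) (L ω)⌋,
        ⌊(2 : ℝ) ^ X * (mkS a q L T fy fom fbe fth fS fE nu X).ka (T ω) (L ω)⌋))
      (fun ω => (T ω, pdv X y om be th S E ω))
    have g2 := CH_subadd h0 (fun ω => ⌊(2 : ℝ) ^ X *
      (mkS a q L T fy fom fbe fth fS fE nu X).ct (T ω) (L ω)⌋)
      (fun ω => ⌊(2 : ℝ) ^ X * (mkS a q L T fy fom fbe fth fS fE nu X).ka (T ω) (L ω)⌋)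
      (fun ω => (T ω, pdv X y om be th S E ω))
    have g3 : CH q (fun ω (j : Fin 2) => ⌊(2 : ℝ) ^ X *
        (mkS a q L T fy fom fbe fth fS fE nu X).pt (T ω) (L ω) j⌋)
        (fun ω => (T ω, pdv X y om be th S E ω)) ≤
        CH q (fun ω (j : Fin 2) => ⌊(2 : ℝ) ^ X *
        (mkS a q L T fy fom fbe fth fS fE nu X).pt (T ω) (L ω) j⌋) (dgv X (ptv y om th)) :=
      CH_mono_cond h0 fun ω ω' _ _ e => (Prod.ext_iff.mp (Prod.ext_iff.mp e).2).1
    have g4 : CH q (fun ω => ⌊(2 : ℝ) ^ X *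
        (mkS a q L T fy fom fbe fth fS fE nu X).ct (T ω) (L ω)⌋)
        (fun ω => (T ω, pdv X y om be th S E ω)) ≤
        CH q (fun ω => ⌊(2 : ℝ) ^ X * (mkS a q L T fy fom fbe fth fS fE nu X).ct (T ω) (L ω)⌋)
        (dg X (ctv be S om)) :=
      CH_mono_cond h0 fun ω ω' _ _ e =>
        (Prod.ext_iff.mp (Prod.ext_iff.mp (Prod.ext_iff.mp e).2).2).1
    have g5 : CH q (fun ω => ⌊(2 : ℝ) ^ X *
        (mkS a q L T fy fom fbe fth fS fE nu X).ka (T ω) (L ω)⌋)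
        (fun ω => (T ω, pdv X y om be th S E ω)) ≤
        CH q (fun ω => ⌊(2 : ℝ) ^ X * (mkS a q L T fy fom fbe fth fS fE nu X).ka (T ω) (L ω)⌋)
        (dg X (kav E om)) :=
      CH_mono_cond h0 fun ω ω' _ _ e =>
        (Prod.ext_iff.mp (Prod.ext_iff.mp (Prod.ext_iff.mp e).2).2).2
    have g6 : CH q P' (fun ω => (T ω, pdv X y om be th S E ω)) =
        CH q (fun ω => ((fun (j : Fin 2) => ⌊(2 : ℝ) ^ X *
          (mkS a q L T fy fom fbe fth fS fE nu X).pt (T ω) (L ω) j⌋),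
          (⌊(2 : ℝ) ^ X * (mkS a q L T fy fom fbe fth fS fE nu X).ct (T ω) (L ω)⌋,
          ⌊(2 : ℝ) ^ X * (mkS a q L T fy fom fbe fth fS fE nu X).ka (T ω) (L ω)⌋)))
        (fun ω => (T ω, pdv X y om be th S E ω)) := by
      rw [hP']
      rfl
    linarith
  have k5 := CH_pt_forth (X := X) h (s := X) le_rfl
  have k6 : CH q (fun ω => ⌊(2 : ℝ) ^ X *
      (mkS a q L T fy fom fbe fth fS fE nu X).ct (T ω) (L ω)⌋) (dg X (ctv be S om)) ≤
      Real.log (2 * 2 ^ (2 * a) + 17) := by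
    refine (CH_int h.law _ _ (c := 8) fun ω ω' c d e => ?_).trans
      (Real.log_le_log (by norm_num) (by linarith))
    have e1 : ⌊(2 : ℝ) ^ X * ctv be S om ω⌋ = ⌊(2 : ℝ) ^ X * ctv be S om ω'⌋ := e
    have e2 := fl_eq e1
    have n1 := near_ct (X := X) h c
    have n2 := near_ct (X := X) h d
    have g1 : |(2 : ℝ) ^ X * (mkS a q L T fy fom fbe fth fS fE nu X).ct (T ω) (L ω) -
        2 ^ X * (mkS a q L T fy fom fbe fth fS fE nu X).ct (T ω') (L ω')| ≤ 7 := by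
      rw [abs_le] at e2 n1 n2 ⊢
      constructor <;> linarith [e2.1, e2.2, n1.1, n1.2, n2.1, n2.2]
    exact (fl_sub g1).trans (by norm_num)
  have k7 : CH q (fun ω => ⌊(2 : ℝ) ^ X *
      (mkS a q L T fy fom fbe fth fS fE nu X).ka (T ω) (L ω)⌋) (dg X (kav E om)) ≤
      Real.log (2 * 2 ^ (2 * a) + 17) := by
    refine (CH_int h.law _ _ (c := 2 ^ (2 * a) + 5) fun ω ω' c d e => ?_).trans
      (Real.log_le_log (by linarith) (by linarith))
    have e1 : ⌊(2 : ℝ) ^ X * kav E om ω⌋ = ⌊(2 : ℝ) ^ X * kav E om ω'⌋ := e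
    have e2 := fl_eq e1
    have n1 := near_ka (X := X) h c
    have n2 := near_ka (X := X) h d
    have g2 := chg (e := 2 ^ (2 * a)) n1 n2 e2 h2X (by positivity)
      (by rw [mul_comm]; exact mul_le_mul_of_nonneg_right h3' h2X.le)
    exact (fl_sub g2).trans (by linarith)
  have k8 : CH q ((mkS a q L T fy fom fbe fth fS fE nu X).ptd X) (dgv X (ptv y om th)) =
    CH q (fun ω (j : Fin 2) => ⌊(2 : ℝ) ^ X *
        (mkS a q L T fy fom fbe fth fS fE nu X).pt (T ω) (L ω) j⌋) (dgv X (ptv y om th)) := rfl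
  have k9 : 5 * Real.log (2 * 2 ^ (2 * a) + 17) ≤ Cst a := by
    have := Cst_nonneg a
    unfold Cst at this ⊢
    linarith
  rw [hP'] at k3 k4
  linarith

end rep

end Ocs

end Pool.OCSR
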